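import Pool.Agent.N98.RV.AddC
import Pool.Agent.N98.RV.Reg2
import Pool.Agent.W418.LU2.Pair

/-!
Restriction of a regular model to the divisor of a discrete valuation ring.
-/

set_option autoImplicit false
set_option linter.unusedVariables false
set_option linter.unusedSimpArgs false
set_option linter.unusedSectionVars false

universe u

open IsLocalRing Pool.Agent.W418.LU2

namespace Pool.Agent.N98.RV

section pq

variable {k K L : Type u} [CommRing k] [Field K] [Algebra k K] [Field L] [Algebra k L]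
  {Q : Subalgebra k K} (π : Q →ₐ[k] L)

open Classical in
/-- The extension of `π` by zero. -/
noncomputable def pq (x : K) : L := if h : x ∈ Q then π ⟨x, h⟩ else 0

lemma pq_of {x : K} (h : x ∈ Q) : pq π x = π ⟨x, h⟩ := dif_pos h

lemma pq_coe (x : Q) : pq π (x : K) = π x := pq_of π x.2

lemma pq_mul {x y : K} (hx : x ∈ Q) (hy : y ∈ Q) : pq π (x * y) = pq π x * pq π y := by
  rw [pq_of π hx, pq_of π hy, pq_of π (Q.mul_mem hx hy), ← map_mul]
  rfl

lemma pq_add {x y : K} (hx : x ∈ Q) (hy : y ∈ Q) : pq π (x + y) = pq π x + pq π y := by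
  rw [pq_of π hx, pq_of π hy, pq_of π (Q.add_mem hx hy), ← map_add]
  rfl

lemma pq_one : pq π 1 = 1 := by
  rw [pq_of π Q.one_mem]
  exact map_one π

lemma pq_zero : pq π 0 = 0 := by
  rw [pq_of π Q.zero_mem]
  exact map_zero π

lemma pq_mul_inv {x : K} (h0 : x ≠ 0) (hx : x ∈ Q) (hx' : x⁻¹ ∈ Q) :
    pq π x * pq π x⁻¹ = 1 := by
  rw [← pq_mul π hx hx', mul_inv_cancel₀ h0, pq_one]

lemma pq_ne {x : K} (h0 : x ≠ 0) (hx : x ∈ Q) (hx' : x⁻¹ ∈ Q) : pq π x ≠ 0 :=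
  left_ne_zero_of_mul_eq_one (pq_mul_inv π h0 hx hx')

lemma pq_inv {x : K} (h0 : x ≠ 0) (hx : x ∈ Q) (hx' : x⁻¹ ∈ Q) :
    pq π x⁻¹ = (pq π x)⁻¹ :=
  eq_inv_of_mul_eq_one_right (pq_mul_inv π h0 hx hx')

lemma pq_div {x y : K} (hx : x ∈ Q) (h0 : y ≠ 0) (hy : y ∈ Q) (hy' : y⁻¹ ∈ Q) :
    pq π (x / y) = pq π x / pq π y := by
  rw [div_eq_mul_inv, pq_mul π hx hy', pq_inv π h0 hy hy', div_eq_mul_inv]

lemma pq_pow {x : K} (hx : x ∈ Q) (n : ℕ) : pq π (x ^ n) = pq π x ^ n := by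
  rw [pq_of π hx, pq_of π (Q.pow_mem hx n), ← map_pow]
  rfl

lemma pq_zpow {x : K} (h0 : x ≠ 0) (hx : x ∈ Q) (hx' : x⁻¹ ∈ Q) (n : ℤ) :
    pq π (x ^ n) = pq π x ^ n := by
  rcases le_or_gt 0 n with h | h
  · obtain ⟨m, rfl⟩ := Int.eq_ofNat_of_zero_le h
    rw [zpow_natCast, zpow_natCast, pq_pow π hx]
  · obtain ⟨m, hm⟩ := Int.eq_ofNat_of_zero_le (show 0 ≤ -n by omega)
    have h2 : n = -(m : ℤ) := by omega
    rw [h2, zpow_neg, zpow_neg, zpow_natCast, zpow_natCast, ← inv_pow, ← inv_pow,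
      pq_pow π hx', pq_inv π h0 hx hx']

lemma pq_prod {J : Type} (s : Finset J) (h : J → K) (hh : ∀ i ∈ s, h i ∈ Q) :
    pq π (∏ i ∈ s, h i) = ∏ i ∈ s, pq π (h i) := by
  classical
  induction s using Finset.induction_on with
  | empty => simp [pq_one]
  | insert b s hb ih =>
    rw [Finset.prod_insert hb, Finset.prod_insert hb,
      pq_mul π (hh b (Finset.mem_insert_self b s))
        (Q.prod_mem fun i hi => hh i (Finset.mem_insert_of_mem hi)),
      ih fun i hi => hh i (Finset.mem_insert_of_mem hi)]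

/-- The image of a subalgebra. -/
def im (A : Subalgebra k K) (h : A ≤ Q) : Subalgebra k L :=
  (π.comp (Subalgebra.inclusion h)).range

/-- The map to the image. -/
def qm (A : Subalgebra k K) (h : A ≤ Q) : A →ₐ[k] im π A h :=
  (π.comp (Subalgebra.inclusion h)).rangeRestrict

lemma qm_surj (A : Subalgebra k K) (h : A ≤ Q) : Function.Surjective (qm π A h) :=
  (π.comp (Subalgebra.inclusion h)).rangeRestrict_surjective

lemma pq_mem {A : Subalgebra k K} (h : A ≤ Q) {a : K} (ha : a ∈ A) : pq π a ∈ im π A h :=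
  ⟨⟨a, ha⟩, (pq_of π (h ha)).symm⟩

lemma qm_apply {A : Subalgebra k K} (h : A ≤ Q) {a : K} (ha : a ∈ A) :
    qm π A h ⟨a, ha⟩ = ⟨pq π a, pq_mem π h ha⟩ :=
  Subtype.ext (pq_of π (h ha)).symm

lemma mem_im {A : Subalgebra k K} {h : A ≤ Q} {z : L} :
    z ∈ im π A h ↔ ∃ a ∈ A, pq π a = z := by
  constructor
  · rintro ⟨a, rfl⟩
    exact ⟨a, a.2, pq_of π (h a.2)⟩
  · rintro ⟨a, ha, rfl⟩
    exact pq_mem π h ha

/-- Composition of a valuation ring of `L` with the place of `K` given by `π`. -/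
def pullV (hK : ∀ x : K, (∃ a b : Q, π b ≠ 0 ∧ x * b = a) ∨ (∃ a b : Q, π b ≠ 0 ∧ x⁻¹ * b = a))
    (V : ValuationSubring L) : ValuationSubring K where
  carrier := {x | ∃ a b : Q, π b ≠ 0 ∧ x * b = a ∧ π a / π b ∈ V}
  mul_mem' := by
    rintro x y ⟨a, b, hb, h1, h2⟩ ⟨a', b', hb', h1', h2'⟩
    refine ⟨a * a', b * b', ?_, ?_, ?_⟩
    · rw [map_mul]; exact mul_ne_zero hb hb'
    · push_cast
      rw [← h1, ← h1']; ring
    · rw [map_mul, map_mul, mul_div_mul_comm]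
      exact V.mul_mem _ _ h2 h2'
  one_mem' := ⟨1, 1, by rw [map_one]; exact one_ne_zero, by simp, by
    rw [map_one, div_one]; exact V.one_mem⟩
  add_mem' := by
    rintro x y ⟨a, b, hb, h1, h2⟩ ⟨a', b', hb', h1', h2'⟩
    refine ⟨a * b' + a' * b, b * b', ?_, ?_, ?_⟩
    · rw [map_mul]; exact mul_ne_zero hb hb'
    · push_cast
      rw [← h1, ← h1']; ring
    · have : π (a * b' + a' * b) / π (b * b') = π a / π b + π a' / π b' := by
        rw [map_add, map_mul, map_mul, map_mul]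
        field_simp
      rw [this]
      exact V.add_mem _ _ h2 h2'
  zero_mem' := ⟨0, 1, by rw [map_one]; exact one_ne_zero, by simp, by
    rw [map_zero, zero_div]; exact V.zero_mem⟩
  neg_mem' := by
    rintro x ⟨a, b, hb, h1, h2⟩
    refine ⟨-a, b, hb, ?_, ?_⟩
    · push_cast
      rw [← h1]; ring
    · rw [map_neg, neg_div]
      exact V.neg_mem _ h2
  mem_or_inv_mem' := by
    intro x
    have key : ∀ x : K, (∃ a b : Q, π b ≠ 0 ∧ x * b = a) →
        (∃ a b : Q, π b ≠ 0 ∧ x * b = a ∧ π a / π b ∈ V) ∨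
        (∃ a b : Q, π b ≠ 0 ∧ x⁻¹ * b = a ∧ π a / π b ∈ V) := by
      rintro x ⟨a, b, hb, h1⟩
      by_cases ha : π a = 0
      · left
        refine ⟨a, b, hb, h1, ?_⟩
        rw [ha, zero_div]
        exact V.zero_mem
      · rcases V.mem_or_inv_mem (π a / π b) with h | h
        · exact Or.inl ⟨a, b, hb, h1, h⟩
        · right
          refine ⟨b, a, ha, ?_, ?_⟩
          · have hx : x ≠ 0 := by
              rintro rfl
              apply ha
              have : a = 0 := by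
                apply Subtype.ext
                rw [← h1, zero_mul]
                rfl
              rw [this, map_zero]
            rw [← h1]
            field_simp
          · rw [inv_div] at h
            exact h
    rcases hK x with h | h
    · exact key x h
    · have := key x⁻¹ h
      rw [inv_inv] at this
      exact this.symm

lemma pullV_pq {hK : ∀ x : K, (∃ a b : Q, π b ≠ 0 ∧ x * b = a) ∨
    (∃ a b : Q, π b ≠ 0 ∧ x⁻¹ * b = a)} {V : ValuationSubring L} {x : K} (hx : x ∈ Q)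
    (h : x ∈ pullV π hK V) : pq π x ∈ V := by
  obtain ⟨a, b, hb, h1, h2⟩ := h
  have h3 : pq π x = π a / π b := by
    rw [eq_div_iff hb, pq_of π hx, ← map_mul]
    congr 1
    exact Subtype.ext h1
  rw [h3]
  exact h2

end pq

section cutreg

variable {k K L : Type u} [CommRing k] [Field K] [Algebra k K] [Field L] [Algebra k L]
  {Q : Subalgebra k K} (π : Q →ₐ[k] L)

lemma pq_neg {x : K} (hx : x ∈ Q) : pq π (-x) = -pq π x := by
  rw [pq_of π hx, pq_of π (Q.neg_mem hx), ← map_neg]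
  rfl

/-- The preimage of a subring. -/
noncomputable def pre (W : Subring L) : Subring K where
  carrier := {q | q ∈ Q ∧ pq π q ∈ W}
  mul_mem' := by
    rintro x y ⟨hx, hx'⟩ ⟨hy, hy'⟩
    exact ⟨Q.mul_mem hx hy, by rw [pq_mul π hx hy]; exact W.mul_mem hx' hy'⟩
  one_mem' := ⟨Q.one_mem, by rw [pq_one]; exact W.one_mem⟩
  add_mem' := by
    rintro x y ⟨hx, hx'⟩ ⟨hy, hy'⟩
    exact ⟨Q.add_mem hx hy, by rw [pq_add π hx hy]; exact W.add_mem hx' hy'⟩
  zero_mem' := ⟨Q.zero_mem, by rw [pq_zero]; exact W.zero_mem⟩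
  neg_mem' := by
    rintro x ⟨hx, hx'⟩
    exact ⟨Q.neg_mem hx, by rw [pq_neg π hx]; exact W.neg_mem hx'⟩

lemma mem_pre {W : Subring L} {q : K} : q ∈ pre π W ↔ q ∈ Q ∧ pq π q ∈ W := Iff.rfl

variable (hinv : ∀ b : K, b ∈ Q → pq π b ≠ 0 → b⁻¹ ∈ Q)

include hinv

lemma inv_mem_pre {W : Subring L} {b : K} (hb : b ∈ Q) (h0 : pq π b ≠ 0)
    (hW : (pq π b)⁻¹ ∈ W) : b ≠ 0 ∧ b⁻¹ ∈ pre π W := by
  have hb0 : b ≠ 0 := by
    rintro rfl
    exact h0 (pq_zero π)
  refine ⟨hb0, hinv b hb h0, ?_⟩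
  rw [pq_inv π hb0 hb (hinv b hb h0)]
  exact hW

lemma loc_pre {W : Subring L} (hW : Loc W) : Loc (pre π W) := by
  rintro a ⟨ha, ha'⟩
  rcases hW _ ha' with h | h
  · exact Or.inl (inv_mem_pre π hinv ha h.1 h.2)
  · right
    have e : pq π (1 - a) = 1 - pq π a := by
      rw [sub_eq_add_neg, pq_add π Q.one_mem (Q.neg_mem ha), pq_neg π ha, pq_one, ← sub_eq_add_neg]
    rw [← e] at h
    exact inv_mem_pre π hinv (Q.sub_mem Q.one_mem ha) h.1 h.2

/-- The map of the local rings. -/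
noncomputable def tht {A : Subalgebra k K} (h : A ≤ Q) (W : Subring L) :
    lo (pre π W) A.toSubring →+* lo W (im π A h).toSubring where
  toFun z := ⟨pq π z, by
    obtain ⟨a, ha, b, hb, hb0, hbW, hz⟩ := z.2
    have e : pq π (z : K) = pq π a * (pq π b)⁻¹ := by
      rw [hz, pq_mul π (h ha) hbW.1, pq_inv π hb0 (h hb) hbW.1]
    rw [e]
    refine ⟨pq π a, pq_mem π h ha, pq π b, pq_mem π h hb, pq_ne π hb0 (h hb) hbW.1, ?_, rfl⟩
    rw [← pq_inv π hb0 (h hb) hbW.1]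
    exact hbW.2⟩
  map_one' := Subtype.ext (pq_one π)
  map_zero' := Subtype.ext (pq_zero π)
  map_mul' := by
    intro x y
    apply Subtype.ext
    have hQ : ∀ z : lo (pre π W) A.toSubring, (z : K) ∈ Q := by
      intro z
      obtain ⟨a, ha, b, hb, hb0, hbW, hz⟩ := z.2
      rw [hz]
      exact Q.mul_mem (h ha) hbW.1
    exact pq_mul π (hQ x) (hQ y)
  map_add' := by
    intro x y
    apply Subtype.ext
    have hQ : ∀ z : lo (pre π W) A.toSubring, (z : K) ∈ Q := by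
      intro z
      obtain ⟨a, ha, b, hb, hb0, hbW, hz⟩ := z.2
      rw [hz]
      exact Q.mul_mem (h ha) hbW.1
    exact pq_add π (hQ x) (hQ y)

/-- Restriction to a divisor. -/
theorem RegC.cut {A : Subalgebra k K} (h : A ≤ Q) {I : Type} {x : I → K}
    (hA : RegC A.toSubring x) (i0 : I) (h0 : pq π (x i0) = 0)
    (h1 : ∀ i, i ≠ i0 → pq π (x i) ≠ 0)
    (hun : ∀ q ∈ Q, pq π q = 0 → q / x i0 ∈ Q)
    (hdom : ∀ q ∈ Q, ∃ a ∈ A, ∃ b ∈ A, pq π b ≠ 0 ∧ q * b = a) :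
    RegC (im π A h).toSubring (fun i : {i : I // i ≠ i0} => pq π (x i)) := by
  refine ⟨fun i => h1 _ i.2, fun i => pq_mem π h (hA.mem _), fun W hW hAW ι _ f hf => ?_⟩
  have hAW' : A.toSubring ≤ pre π W := fun a ha => ⟨h ha, hAW (pq_mem π h ha)⟩
  have hWl := loc_pre π hinv hW
  have h2 := hA.reg (pre π W) hWl hAW' (ι ⊕ Unit) (Sum.elim (fun k => (f k).1) (fun _ => i0)) (by
    rintro (a | a) (b | b) hab
    · exact congrArg Sum.inl (hf (Subtype.ext hab))
    · exact absurd hab (f a).2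
    · exact absurd hab.symm (f b).2
    · rfl)
  have hreg := h2.reg
  have hloc := isLocalRing_lo hW hAW
  have hy : x i0 ∈ lo (pre π W) A.toSubring := le_lo _ _ (hA.mem i0)
  have hymax : (⟨x i0, hy⟩ : lo (pre π W) A.toSubring) ∈
      maximalIdeal (lo (pre π W) A.toSubring) := by
    rw [h2.mem_max]
    rintro ⟨h3, h4⟩
    exact pq_ne π h3 (h (hA.mem i0)) h4.1 h0
  have hprime : Prime (⟨x i0, hy⟩ : lo (pre π W) A.toSubring) := by
    have h3 := h2.ind.ind (fun _ : Unit => Sum.inr ()) (fun _ _ _ => rfl) (fun _ => hymax)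
    exact h3.prime ()
  have hQ : ∀ z ∈ lo (pre π W) A.toSubring, z ∈ Q := by
    rintro z ⟨a, ha, b, hb, hb0, hbW, rfl⟩
    exact Q.mul_mem (h ha) hbW.1
  have hsurj : Function.Surjective (tht π h W) := by
    rintro ⟨y, ⟨a', ha', b', hb', hb0, hbW, rfl⟩⟩
    obtain ⟨a, ha, rfl⟩ := (mem_im π).1 ha'
    obtain ⟨b, hb, rfl⟩ := (mem_im π).1 hb'
    obtain ⟨h3, h4⟩ := inv_mem_pre π hinv (h hb) hb0 hbW
    refine ⟨⟨a * b⁻¹, a, ha, b, hb, h3, h4, rfl⟩, Subtype.ext ?_⟩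
    change pq π (a * b⁻¹) = pq π a * (pq π b)⁻¹
    rw [pq_mul π (h ha) h4.1, pq_inv π h3 (h hb) h4.1]
  have hker : RingHom.ker (tht π h W) = Ideal.span (Set.range (fun _ : Unit =>
      (⟨x i0, hy⟩ : lo (pre π W) A.toSubring))) := by
    rw [Set.range_const]
    ext z
    rw [RingHom.mem_ker, Ideal.mem_span_singleton]
    constructor
    · intro hz
      have hz0 : pq π (z : K) = 0 := congrArg Subtype.val hz
      obtain ⟨a, ha, b, hb, hb0, hab⟩ := hdom _ (hun z (hQ _ z.2) hz0)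
      have e1 : (⟨x i0, hy⟩ : lo (pre π W) A.toSubring) ∣ z * ⟨b, le_lo _ _ hb⟩ := by
        refine ⟨⟨a, le_lo _ _ ha⟩, Subtype.ext ?_⟩
        change (z : K) * b = x i0 * a
        rw [← hab]
        have := hA.ne i0
        field_simp
      rcases hprime.dvd_or_dvd e1 with h3 | ⟨c, hc⟩
      · exact h3
      · exfalso
        apply hb0
        have h4 : b = x i0 * c := congrArg Subtype.val hc
        rw [h4, pq_mul π (h (hA.mem i0)) (hQ _ c.2), h0, zero_mul]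
    · rintro ⟨c, rfl⟩
      apply Subtype.ext
      change pq π (x i0 * c) = 0
      rw [pq_mul π (h (hA.mem i0)) (hQ _ c.2), h0, zero_mul]
  have hind : IndN (Sum.elim (fun k : ι => (⟨x (f k).1, le_lo _ _ (hA.mem _)⟩ :
      lo (pre π W) A.toSubring)) (fun _ : Unit => ⟨x i0, hy⟩)) := by
    have h3 := h2.ind
    convert h3 using 1
    funext l
    rcases l with l | l <;> rfl
  obtain ⟨h5, h6⟩ := quot_regular' hind (fun _ => hymax) (tht π h W) hsurj hker
  exact ⟨lo_le hAW, fun k => h1 _ (f k).2, fun k => le_lo _ _ (pq_mem π h (hA.mem _)), h5,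
    fun y hy h0 h1 => inv_mem_lo hAW hy h0 h1, h6⟩

end cutreg

section model3

variable {k K L : Type u} [CommRing k] [Field K] [Algebra k K] [Field L] [Algebra k L]
  {Q : Subalgebra k K} (π : Q →ₐ[k] L) {𝒱 : Set (ValuationSubring K)}
  {𝒲 : Set (ValuationSubring L)} {T I T' I' : Type}

/-- The restriction of a model to a divisor. -/
theorem exists_model3 (hK : ∀ x : K, (∃ a b : Q, π b ≠ 0 ∧ x * b = a) ∨
    (∃ a b : Q, π b ≠ 0 ∧ x⁻¹ * b = a)) (hinv : ∀ b : Q, π b ≠ 0 → (b : K)⁻¹ ∈ Q)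
    (hne : 𝒲.Nonempty) (h𝒲 : ∀ V ∈ 𝒲, pullV π hK V ∈ 𝒱)
    (M : LM 𝒱 (⊥ : Subalgebra k K) ⊤ T I)
    (τ : T' → T) (ι : I' → I) (hcov : ∀ t, M.A t ≤ Q → ∃ t', τ t' = t) (t0 : T')
    (hAQ : ∀ t, M.A (τ t) ≤ Q) (hxQ' : ∀ t i, (M.x (τ t) (ι i))⁻¹ ∈ Q)
    (hrg : ∀ t, RegC (im π (M.A (τ t)) (hAQ t)).toSubring
      (fun i => pq π (M.x (τ t) (ι i)))) :
    ∃ M' : LM 𝒲 (⊥ : Subalgebra k L) ⊤ T' I', (M'.A = fun t => im π (M.A (τ t)) (hAQ t)) ∧
      M'.x = fun t i => pq π (M.x (τ t) (ι i)) := by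
  have hHQ : ∀ t, M.H (τ t) / M.H (τ t0) ∈ Q := fun t => hAQ t0 (M.rt (τ t0) (τ t))
  have hHQ' : ∀ t, (M.H (τ t) / M.H (τ t0))⁻¹ ∈ Q := fun t => by
    rw [inv_div]; exact hAQ t (M.rt (τ t) (τ t0))
  have hH0 : ∀ t, M.H (τ t) / M.H (τ t0) ≠ 0 := fun t => div_ne_zero (M.H0 _) (M.H0 _)
  have hHdiv : ∀ t t', pq π (M.H (τ t') / M.H (τ t0)) / pq π (M.H (τ t) / M.H (τ t0)) =
      pq π (M.H (τ t') / M.H (τ t)) := by
    intro t t'
    rw [← pq_div π (hHQ t') (hH0 t) (hHQ t) (hHQ' t),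
      div_div_div_cancel_right₀ (M.H0 (τ t0))]
  have hxQ : ∀ t i, M.x (τ t) (ι i) ∈ Q := fun t i => hAQ t (M.xA _ _)
  refine ⟨{ ne := hne
            A := fun t => im π (M.A (τ t)) (hAQ t)
            H := fun t => pq π (M.H (τ t) / M.H (τ t0))
            x := fun t i => pq π (M.x (τ t) (ι i))
            ft := ?_
            base := fun t => bot_le
            H0 := fun t => pq_ne π (hH0 t) (hHQ t) (hHQ' t)
            HR := fun t => trivial
            rt := ?_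
            gl := ?_
            dn := fun t f hf => ⟨0, trivial⟩
            cv := ?_
            xA := fun t i => pq_mem π _ (M.xA _ _)
            x0 := fun t i => pq_ne π (M.x0 _ _) (hxQ t i) (hxQ' t i)
            gi := ?_
            rg := hrg }, rfl, rfl⟩
  · intro t
    have := M.ft (τ t)
    exact Algebra.FiniteType.of_surjective (qm π (M.A (τ t)) (hAQ t)) (qm_surj π _ _)
  · intro t t'
    rw [hHdiv]
    exact pq_mem π (hAQ t) (M.rt _ _)
  · intro t t' f hf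
    obtain ⟨a, ha, rfl⟩ := (mem_im π).1 hf
    obtain ⟨n, hn⟩ := M.gl (τ t) (τ t') a ha
    refine ⟨n, ?_⟩
    rw [hHdiv, ← pq_pow π (hAQ _ (M.rt (τ t) (τ t'))),
      ← pq_mul π (Q.pow_mem (hAQ _ (M.rt (τ t) (τ t'))) n) (hAQ t' ha)]
    exact pq_mem π (hAQ t) hn
  · intro V hV
    obtain ⟨t, ht⟩ := M.cv (pullV π hK V) (h𝒲 V hV)
    have htQ : M.A t ≤ Q := by
      intro f hf
      obtain ⟨a, b, hb, h1, -⟩ := ht f hf
      have hb0 : (b : K) ≠ 0 := by
        intro h0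
        apply hb
        have : b = 0 := Subtype.ext h0
        rw [this, map_zero]
      have : f = a * (b : K)⁻¹ := by
        rw [← h1, mul_assoc, mul_inv_cancel₀ hb0, mul_one]
      rw [this]
      exact Q.mul_mem a.2 (hinv b hb)
    obtain ⟨t', rfl⟩ := hcov t htQ
    refine ⟨t', ?_⟩
    intro f hf
    obtain ⟨a, ha, rfl⟩ := (mem_im π).1 hf
    exact pullV_pq π (hAQ t' ha) (ht a ha)
  · intro t t' i
    obtain ⟨n, hn⟩ := M.gi (τ t) (τ t') (ι i)
    refine ⟨n, ?_⟩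
    have h1 : M.x (τ t') (ι i) / M.x (τ t) (ι i) ∈ Q := by
      rw [div_eq_mul_inv]
      exact Q.mul_mem (hxQ t' i) (hxQ' t i)
    rw [hHdiv, ← pq_pow π (hAQ _ (M.rt (τ t) (τ t'))),
      ← pq_div π (hxQ t' i) (M.x0 _ _) (hxQ t i) (hxQ' t i),
      ← pq_mul π (Q.pow_mem (hAQ _ (M.rt (τ t) (τ t'))) n) h1]
    exact pq_mem π (hAQ t) hn

end model3

section cut

variable {k K L : Type u} [CommRing k] [Field K] [Algebra k K] [Field L] [Algebra k L]
  {Q : Subalgebra k K} (π : Q →ₐ[k] L) {𝒱 : Set (ValuationSubring K)}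
  {𝒲 : Set (ValuationSubring L)}

lemma pq_algebraMap (r : k) : pq π (algebraMap k K r) = algebraMap k L r := by
  rw [pq_of π (Q.algebraMap_mem r)]
  exact π.commutes r

/-- **Restriction of a model to a divisor.** -/
theorem cut (hne𝒲 : 𝒲.Nonempty)
    (hK : ∀ x : K, (∃ a b : Q, π b ≠ 0 ∧ x * b = a) ∨ (∃ a b : Q, π b ≠ 0 ∧ x⁻¹ * b = a))
    (h𝒲 : ∀ V ∈ 𝒲, pullV π hK V ∈ 𝒱) (hs : Function.Surjective π) (hQ : ∀ x : K, x ∈ Q ∨ x⁻¹ ∈ Q)
    (hinv : ∀ b : K, b ∈ Q → pq π b ≠ 0 → b⁻¹ ∈ Q) (f : K) (hfQ : f ∈ Q) (hf0 : f ≠ 0)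
    (hfπ : pq π f = 0) (hun : ∀ q ∈ Q, pq π q = 0 → q / f ∈ Q)
    {T I : Type} [Finite T] [Fintype I] (M : LM 𝒱 (⊥ : Subalgebra k K) ⊤ T I) (hMf : IsBr M f)
    (hdom : ∀ t, M.A t ≤ Q → ∀ q ∈ Q, ∃ a ∈ M.A t, ∃ b ∈ M.A t, pq π b ≠ 0 ∧ q * b = a) :
    ∃ (T' I' : Type) (_ : Finite T') (_ : Fintype I') (M' : LM 𝒲 (⊥ : Subalgebra k L) ⊤ T' I'),
      Frc M' ∧ ∀ g, g ∈ Q → pq π g ≠ 0 → IsBr M g → IsBr M' (pq π g) := by
  classical
  have hne : ∀ {b : K}, pq π b ≠ 0 → b ≠ 0 := by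
    rintro b hb rfl
    exact hb (pq_zero π)
  have hinv' : ∀ b : Q, π b ≠ 0 → (b : K)⁻¹ ∈ Q := fun b hb =>
    hinv b b.2 (by rw [pq_coe]; exact hb)
  -- units of `Q`
  have hunit : ∀ b : K, b ∈ Q → b ≠ 0 → b⁻¹ ∈ Q → pq π b ≠ 0 := fun b hb h0 hb' =>
    pq_ne π h0 hb hb'
  let τ : {t : T // M.A t ≤ Q} → T := Subtype.val
  have hAQ : ∀ t, M.A (τ t) ≤ Q := fun t => t.2
  obtain ⟨N, hN, γ, hγ⟩ := hMf
  have hN0 : N ≠ 0 := by
    rintro rfl
    rw [Nat.cast_zero] at hN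
    have h1 := hN.map (algebraMap k K)
    rw [map_zero] at h1
    exact not_isUnit_zero h1
  -- the local ring of the divisor
  have hQl : Loc Q.toSubring := by
    intro a ha
    by_cases h : pq π a = 0
    · right
      have e : pq π (1 - a) = 1 := by
        rw [sub_eq_add_neg, pq_add π Q.one_mem (Q.neg_mem ha), pq_neg π ha, pq_one, h, neg_zero,
          add_zero]
      have h1 : pq π (1 - a) ≠ 0 := by rw [e]; exact one_ne_zero
      exact ⟨hne h1, hinv _ (Q.sub_mem Q.one_mem ha) h1⟩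
    · exact Or.inl ⟨hne h, hinv _ ha h⟩
  have hlo : ∀ t : {t : T // M.A t ≤ Q}, ∀ q ∈ Q, q ∈ lo Q.toSubring (M.A (τ t)).toSubring := by
    intro t q hq
    obtain ⟨a, ha, b, hb, hb0, hab⟩ := hdom (τ t) (hAQ t) q hq
    refine ⟨a, ha, b, hb, hne hb0, hinv b (hAQ t hb) hb0, ?_⟩
    rw [← hab, mul_assoc, mul_inv_cancel₀ (hne hb0), mul_one]
  -- Claim 1: some component contains the divisor
  have claim1 : ∀ t : {t : T // M.A t ≤ Q}, ∃ i, pq π (M.x (τ t) i) = 0 := by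
    intro t
    by_contra hcon
    push Not at hcon
    obtain ⟨w, h0, h1, h2, h3⟩ := hγ (τ t)
    have h4 : (f ^ N)⁻¹ ∈ Q := by
      rw [h3, mul_inv, ← Finset.prod_inv_distrib]
      refine Q.mul_mem (hAQ t h2) (Q.prod_mem fun i _ => ?_)
      rw [← zpow_neg]
      exact zpow_mem_of (hAQ t (M.xA _ i)) (Or.inr (hinv _ (hAQ t (M.xA _ i)) (hcon i)))
    have h5 := hunit (f ^ N) (Q.pow_mem hfQ N) (pow_ne_zero _ hf0) h4
    rw [pq_pow π hfQ, hfπ, zero_pow hN0] at h5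
    exact h5 rfl
  -- Claim 2: it is unique
  have claim2 : ∀ (t : {t : T // M.A t ≤ Q}) (i j : I), pq π (M.x (τ t) i) = 0 →
      pq π (M.x (τ t) j) = 0 → i = j := by
    intro t i j hi hj
    by_contra hij
    -- assume `x j / x i ∈ Q`
    have key : ∀ i j, i ≠ j → pq π (M.x (τ t) i) = 0 → pq π (M.x (τ t) j) = 0 →
        M.x (τ t) j / M.x (τ t) i ∈ Q → False := by
      intro i j hij hi hj h
      have h1 := (M.rg (τ t)).reg Q.toSubring hQl (hAQ t) Bool (fun b => if b then i else j) (by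
        rintro (_ | _) (_ | _) hab
        · rfl
        · exact absurd hab.symm hij
        · exact absurd hab hij
        · rfl)
      have hreg := h1.reg
      have h2 := h1.ind.ind (id : Bool → Bool) Function.injective_id (by
        rintro (_ | _)
        · rw [h1.mem_max]
          rintro ⟨h3, h4⟩
          exact hunit _ (hAQ t (M.xA _ _)) h3 h4 hj
        · rw [h1.mem_max]
          rintro ⟨h3, h4⟩
          exact hunit _ (hAQ t (M.xA _ _)) h3 h4 hi)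
      refine h2.not_dvd (i := true) (j := false) (by simp) ⟨⟨_, hlo t _ h⟩, Subtype.ext ?_⟩
      change M.x (τ t) j = M.x (τ t) i * (M.x (τ t) j / M.x (τ t) i)
      rw [mul_div_cancel₀ _ (M.x0 _ _)]
    rcases hQ (M.x (τ t) j / M.x (τ t) i) with h | h
    · exact key i j hij hi hj h
    · rw [inv_div] at h
      exact key j i (Ne.symm hij) hj hi h
  have hT' : Nonempty {t : T // M.A t ≤ Q} := by
    obtain ⟨V, hV⟩ := hne𝒲
    obtain ⟨t, ht⟩ := M.cv (pullV π hK V) (h𝒲 V hV)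
    refine ⟨⟨t, ?_⟩⟩
    intro f hf
    obtain ⟨a, b, hb, h1, -⟩ := ht f hf
    have hb0 : (b : K) ≠ 0 := by
      intro h0
      apply hb
      have : b = 0 := Subtype.ext h0
      rw [this, map_zero]
    have : f = a * (b : K)⁻¹ := by
      rw [← h1, mul_assoc, mul_inv_cancel₀ hb0, mul_one]
    rw [this]
    exact Q.mul_mem a.2 (hinv' b hb)
  obtain ⟨t0⟩ := hT'
  obtain ⟨i0, hi0⟩ := claim1 t0
  -- Claim 3: the component is the same on all charts
  have claim3 : ∀ t : {t : T // M.A t ≤ Q}, pq π (M.x (τ t) i0) = 0 := by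
    intro t
    have hOV : OV M (τ t) (τ t0) ≤ Q := by
      refine adj_le (hAQ t) ?_
      rw [inv_div]
      exact hAQ t0 (M.rt _ _)
    have h1 : M.x (τ t) i0 = M.x (τ t) i0 / M.x (τ t0) i0 * M.x (τ t0) i0 := by
      rw [div_mul_cancel₀ _ (M.x0 _ _)]
    rw [h1, pq_mul π (hOV (u_inv_mem_OV M (τ t) (τ t0) i0)) (hAQ t0 (M.xA _ _)), hi0, mul_zero]
  have hx0 : ∀ (t : {t : T // M.A t ≤ Q}) (i : I), i ≠ i0 → pq π (M.x (τ t) i) ≠ 0 :=
    fun t i hi h => hi (claim2 t i i0 h (claim3 t))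
  -- Claim 4: the component is a uniformizer
  have claim4 : ∀ t : {t : T // M.A t ≤ Q}, ∀ q ∈ Q, pq π q = 0 → q / M.x (τ t) i0 ∈ Q := by
    intro t q hq hq0
    have h1 : f / M.x (τ t) i0 ∈ Q := by
      by_contra hcon
      have h2 : M.x (τ t) i0 / f ∈ Q := hun _ (hAQ t (M.xA _ _)) (claim3 t)
      have h3 : pq π (M.x (τ t) i0 / f) = 0 := by
        by_contra h4
        have h5 := hinv _ h2 h4
        rw [inv_div] at h5
        exact hcon h5
      have h4 := hun _ h2 h3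
      have h5 := (M.rg (τ t)).reg Q.toSubring hQl (hAQ t) Unit (fun _ => i0)
        (fun _ _ _ => rfl)
      have hreg := h5.reg
      have hmax : ∀ z (hz : z ∈ lo Q.toSubring (M.A (τ t)).toSubring), pq π z = 0 →
          (⟨z, hz⟩ : lo Q.toSubring (M.A (τ t)).toSubring) ∈
            maximalIdeal (lo Q.toSubring (M.A (τ t)).toSubring) := by
        intro z hz hz0
        rw [h5.mem_max]
        rintro ⟨h6, h7⟩
        exact hunit _ (lo_le (hAQ t) hz) h6 h7 hz0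
      have h6 := h5.ind.ind (id : Unit → Unit) Function.injective_id (fun _ =>
        hmax _ _ (claim3 t))
      have h7 : (⟨M.x (τ t) i0, le_lo _ _ (M.xA _ _)⟩ :
          lo Q.toSubring (M.A (τ t)).toSubring) ∈
            maximalIdeal (lo Q.toSubring (M.A (τ t)).toSubring) ^ 2 := by
        have e1 : (⟨M.x (τ t) i0, le_lo _ _ (M.xA _ _)⟩ :
            lo Q.toSubring (M.A (τ t)).toSubring) = ⟨f, hlo t _ hfQ⟩ * ⟨_, hlo t _ h2⟩ := by
          apply Subtype.ext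
          change M.x (τ t) i0 = f * (M.x (τ t) i0 / f)
          rw [mul_div_cancel₀ _ hf0]
        rw [e1, pow_two]
        exact Ideal.mul_mem_mul (hmax _ _ hfπ) (hmax _ _ h3)
      have h8 := h6.2 (fun _ => 1) (by
        rw [Fintype.sum_unique, one_mul]
        exact h7) ()
      exact (Ideal.ne_top_iff_one _).1 (maximalIdeal.isMaximal _).ne_top h8
    have h2 : q / M.x (τ t) i0 = q / f * (f / M.x (τ t) i0) := by
      have := M.x0 (τ t) i0
      field_simp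
    rw [h2]
    exact Q.mul_mem (hun q hq hq0) h1
  obtain ⟨M', hA', hx'⟩ := exists_model3 π hK hinv' hne𝒲 h𝒲 M τ (fun i : {i : I // i ≠ i0} => i.1)
    (fun t ht => ⟨⟨t, ht⟩, rfl⟩) t0 hAQ
    (fun t i => hinv _ (hAQ t (M.xA _ _)) (hx0 t i.1 i.2))
    (fun t => RegC.cut π hinv (hAQ t) (M.rg (τ t)) i0 (claim3 t) (hx0 t) (claim4 t)
      (hdom (τ t) (hAQ t)))
  refine ⟨{t : T // M.A t ≤ Q}, {i : I // i ≠ i0}, inferInstance, inferInstance, M', ?_, ?_⟩
  · intro t z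
    obtain ⟨⟨q, hq⟩, rfl⟩ := hs z
    obtain ⟨a, ha, b, hb, hb0, hab⟩ := hdom (τ t) (hAQ t) q hq
    rw [hA']
    refine ⟨pq π a, pq_mem π (hAQ t) ha, pq π b, pq_mem π (hAQ t) hb, hb0, ?_⟩
    rw [← hab, pq_mul π hq (hAQ t hb), mul_assoc, mul_inv_cancel₀ hb0, mul_one, pq_of π hq]
  · intro g hg hg0 hMg
    obtain ⟨n, hn, δ, hδ⟩ := hMg
    refine ⟨n, hn, fun i => δ i.1, ?_⟩
    intro t
    obtain ⟨w, h0, h1, h2, h3⟩ := hδ (τ t)
    rw [hA', hx']
    -- the exponent of the component vanishes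
    have hwπ : pq π w ≠ 0 := pq_ne π h0 (hAQ t h1) (hAQ t h2)
    have hmem : ∀ i : I, i ≠ i0 → M.x (τ t) i ^ δ i ∈ Q := fun i hi =>
      zpow_mem_of (hAQ t (M.xA _ _)) (Or.inr (hinv _ (hAQ t (M.xA _ _)) (hx0 t i hi)))
    have hmem' : ∀ i : I, i ≠ i0 → (M.x (τ t) i ^ δ i)⁻¹ ∈ Q := fun i hi => by
      rw [← zpow_neg]
      exact zpow_mem_of (hAQ t (M.xA _ _)) (Or.inr (hinv _ (hAQ t (M.xA _ _)) (hx0 t i hi)))
    have hP : ∏ i ∈ Finset.univ.erase i0, M.x (τ t) i ^ δ i ∈ Q :=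
      Q.prod_mem fun i hi => hmem i (Finset.ne_of_mem_erase hi)
    have hP' : (∏ i ∈ Finset.univ.erase i0, M.x (τ t) i ^ δ i)⁻¹ ∈ Q := by
      rw [← Finset.prod_inv_distrib]
      exact Q.prod_mem fun i hi => hmem' i (Finset.ne_of_mem_erase hi)
    have hP0 : ∏ i ∈ Finset.univ.erase i0, M.x (τ t) i ^ δ i ≠ 0 :=
      Finset.prod_ne_zero_iff.2 fun i _ => zpow_ne_zero _ (M.x0 _ _)
    have h3' : g ^ n = w * (M.x (τ t) i0 ^ δ i0 *
        ∏ i ∈ Finset.univ.erase i0, M.x (τ t) i ^ δ i) := by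
      rw [h3, Finset.mul_prod_erase Finset.univ (fun i => M.x (τ t) i ^ δ i)
        (Finset.mem_univ i0)]
    have hg0' : g ≠ 0 := hne hg0
    have hginv : g⁻¹ ∈ Q := hinv g hg hg0
    have hxe : M.x (τ t) i0 ^ δ i0 = g ^ n * w⁻¹ *
        (∏ i ∈ Finset.univ.erase i0, M.x (τ t) i ^ δ i)⁻¹ := by
      rw [h3']
      field_simp
    have hxe1 : M.x (τ t) i0 ^ δ i0 ∈ Q := by
      rw [hxe]
      exact Q.mul_mem (Q.mul_mem (Q.pow_mem hg n) (hAQ t h2)) hP'
    have hxe2 : (M.x (τ t) i0 ^ δ i0)⁻¹ ∈ Q := by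
      rw [hxe, mul_inv, mul_inv, inv_inv, inv_inv, ← inv_pow]
      exact Q.mul_mem (Q.mul_mem (Q.pow_mem hginv n) (hAQ t h1)) hP
    have hxQ := hAQ t (M.xA (τ t) i0)
    have hδ0 : δ i0 = 0 := by
      by_contra hne0
      rcases lt_or_gt_of_ne hne0 with h | h
      · obtain ⟨m, hm⟩ := Int.eq_ofNat_of_zero_le (show 0 ≤ -δ i0 by omega)
        have hm0 : m ≠ 0 := by omega
        have e1 : δ i0 = -(m : ℤ) := by omega
        rw [e1, zpow_neg, zpow_natCast, inv_inv] at hxe2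
        rw [e1, zpow_neg, zpow_natCast] at hxe1
        have h4 := hunit _ hxe2 (pow_ne_zero _ (M.x0 _ _)) hxe1
        rw [pq_pow π hxQ, claim3 t, zero_pow hm0] at h4
        exact h4 rfl
      · obtain ⟨m, hm⟩ := Int.eq_ofNat_of_zero_le h.le
        have hm0 : m ≠ 0 := by omega
        rw [hm, zpow_natCast] at hxe1 hxe2
        have h4 := hunit _ hxe1 (pow_ne_zero _ (M.x0 _ _)) hxe2
        rw [pq_pow π hxQ, claim3 t, zero_pow hm0] at h4
        exact h4 rfl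
    rw [hδ0, zpow_zero, one_mul] at h3'
    refine ⟨pq π w, hwπ, pq_mem π (hAQ t) h1, ?_, ?_⟩
    · rw [← pq_inv π h0 (hAQ t h1) (hAQ t h2)]
      exact pq_mem π (hAQ t) h2
    · rw [← pq_pow π hg, h3', pq_mul π (hAQ t h1) hP,
        pq_prod π _ _ fun i hi => hmem i (Finset.ne_of_mem_erase hi)]
      congr 1
      have e1 : ∀ i ∈ Finset.univ.erase i0, pq π (M.x (τ t) i ^ δ i) =
          pq π (M.x (τ t) i) ^ δ i := fun i hi =>
        pq_zpow π (M.x0 _ _) (hAQ t (M.xA _ _))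
          (hinv _ (hAQ t (M.xA _ _)) (hx0 t i (Finset.ne_of_mem_erase hi))) _
      rw [Finset.prod_congr rfl e1]
      refine (Finset.prod_subtype (Finset.univ.erase i0) (by
        intro i
        simp) (fun i => pq π (M.x (τ t) i) ^ δ i))

end cut

end Pool.Agent.N98.RV
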