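import Pool.Agent.N98.RV.LU

/-!
Local uniformization over monomializable valuations, in bounded degree.
-/

set_option autoImplicit false
set_option linter.unusedVariables false
set_option linter.unusedSectionVars false

universe u

namespace Pool.Agent.N98.RV

open IsLocalRing Pool.Agent.W418.LU2 Polynomial Pool.Agent.N98

lemma isUnit_factorial_of_primes {k : Type*} [CommRing k] (B : ℕ)
    (h : ∀ p : ℕ, p.Prime → p ≤ B → IsUnit (p : k)) : IsUnit ((B.factorial : ℕ) : k) := by
  have key : ∀ n : ℕ, n ≠ 0 → n ≤ B → IsUnit ((n : ℕ) : k) := by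
    intro n
    induction n using Nat.recOnMul with
    | zero => intro h0; exact absurd rfl h0
    | one => intro _ _; rw [Nat.cast_one]; exact isUnit_one
    | prime p hp => intro _ hpB; exact h p hp hpB
    | mul a b ha hb =>
      intro h0 hB
      have ha0 : a ≠ 0 := left_ne_zero_of_mul h0
      have hb0 : b ≠ 0 := right_ne_zero_of_mul h0
      rw [Nat.cast_mul]
      exact (ha ha0 ((Nat.le_mul_of_pos_right a (Nat.pos_of_ne_zero hb0)).trans hB)).mul
        (hb hb0 ((Nat.le_mul_of_pos_left b (Nat.pos_of_ne_zero ha0)).trans hB))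
  have : ∀ n ≤ B, IsUnit ((n.factorial : ℕ) : k) := by
    intro n
    induction n with
    | zero => intro _; rw [Nat.factorial_zero, Nat.cast_one]; exact isUnit_one
    | succ n ih =>
      intro hn
      rw [Nat.factorial_succ, Nat.cast_mul]
      exact (key (n + 1) (Nat.succ_ne_zero n) hn).mul (ih (by omega))
  exact this B le_rfl

section ops

variable {k K : Type u} [CommRing k] [Field K] [Algebra k K] {𝒱 : Set (ValuationSubring K)}
  {R0 R : Subalgebra k K} {T I : Type} [Fintype I] {M : LM 𝒱 R0 R T I}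

lemma IsBr.zpow {g : K} (h : IsBr M g) (n : ℤ) : IsBr M (g ^ n) := by
  obtain ⟨m, rfl | rfl⟩ := Int.eq_nat_or_neg n
  · rw [zpow_natCast]
    exact h.pow m
  · rw [zpow_neg, zpow_natCast]
    exact (h.pow m).inv

lemma IsBr.prod {ι : Type*} (s : Finset ι) (g : ι → K) (h : ∀ i ∈ s, IsBr M (g i)) :
    IsBr M (∏ i ∈ s, g i) := by
  classical
  induction s using Finset.induction_on with
  | empty =>
    rw [Finset.prod_empty]
    exact IsB.one.br
  | insert a s ha ih =>
    rw [Finset.prod_insert ha]
    exact (h a (Finset.mem_insert_self a s)).mul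
      (ih fun i hi => h i (Finset.mem_insert_of_mem hi))

end ops

section main

variable {k E K : Type u} [CommRing k] [IsNoetherianRing k] [Field E] [Infinite E] [Field K]
  [Algebra k E] [Algebra k K] [Algebra E K] [IsScalarTower k E K]

/-- **Local uniformization** over a monomializable valuation, in bounded degree. -/
theorem lu_main {N r δ : ℕ} (x : Fin N → K)
    (htop : IntermediateField.adjoin E (Set.range x) = ⊤) (htr : Algebra.trdeg E K = r) (C0 : ℕ)
    (hδ : ∀ t : ℕ, r.factorial * Module.finrank E (img E x t) ≤ δ * (t + C0) ^ r)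
    (hp : ∀ p : ℕ, p.Prime → p ≤ δ ^ 2 ^ r → IsUnit (p : k))
    {A : Type u} [CommRing A] [IsDomain A] [Algebra k A] [Algebra A K]
    [IsScalarTower k A K] [IsFractionRing A K] {m : ℕ} (s : Fin m → A)
    (q' : Fin m → ℕ) (a : ∀ j, Fin (q' j) → E) (b : ∀ j, Fin (q' j) → Fin N → E)
    (e : ∀ j, Fin (q' j) → ℤ)
    (hs : ∀ j, algebraMap A K (s j) =
      ∏ i, (algebraMap E K (a j i) + ∑ l, algebraMap E K (b j i l) * x l) ^ e j i)
    (hA : ∀ z : A, IsIntegral (Algebra.adjoin k (Set.range s)) z)
    (q : Ideal A) [q.IsPrime] {R : Type u} [CommRing R] [Algebra A R]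
    [IsLocalization.AtPrime R q] [Algebra R K] [IsScalarTower A R K]
    {V : ValuationSubring K} (hRV : ∀ z : R, algebraMap R K z ∈ V)
    (hRV' : ∀ z : R, z ∈ nonunits R ↔ V.valuation (algebraMap R K z) < 1)
    (hV : Mnz k (V.comap (algebraMap E K))) :
    ∃ D : Subalgebra R K, D.FG ∧ (∀ b : D, (b : K) ∈ V) ∧
      ∃ P : Ideal D, ∃ (_ : P.IsPrime),
        (∀ b : D, b ∈ P ↔ V.valuation (b : K) < 1) ∧
        IsRegularLocalRing (Localization.AtPrime P) := by
  classical
  have hinj : Function.Injective (algebraMap A K) := IsFractionRing.injective A K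
  let F : (Σ j, Fin (q' j)) → K := fun i =>
    algebraMap E K (a i.1 i.2) + ∑ j, algebraMap E K (b i.1 i.2 j) * x j
  obtain ⟨T, I, hT, hI, M, hFr, hM⟩ := rel_models (k := k) (E := E) x (hasRM_of_mnz hV) ⟨V, rfl⟩
    htop r htr δ C0 hδ (isUnit_factorial_of_primes _ hp) {i : Σ j, Fin (q' j) // F i ≠ 0}
    (fun i => a i.1.1 i.1.2) (fun i => b i.1.1 i.1.2) (fun i => i.2)
  have hsB : ∀ j, s j ≠ 0 → IsBr M (algebraMap A K (s j)) := by
    intro j hj
    have hne : algebraMap A K (s j) ≠ 0 := fun h0 => hj (hinj (h0.trans (map_zero _).symm))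
    rw [hs j] at hne ⊢
    rw [Finset.prod_ne_zero_iff] at hne
    refine IsBr.prod _ _ fun i _ => ?_
    by_cases h0 : F ⟨j, i⟩ = 0
    · have h1 : e j i = 0 := by
        by_contra h2
        apply hne i (Finset.mem_univ i)
        change F ⟨j, i⟩ ^ e j i = 0
        rw [h0, zero_zpow _ h2]
      rw [h1, zpow_zero]
      exact IsB.one.br
    · exact (hM ⟨⟨j, i⟩, h0⟩).zpow _
  have hAV : ∀ z : A, algebraMap A K z ∈ V := fun z => by
    rw [IsScalarTower.algebraMap_apply A R K]
    exact hRV _
  obtain ⟨B, h1, h2, h3, h4, h5⟩ := lu_of_model M hFr (V := V) rfl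
    (J := {j : Fin m // s j ≠ 0}) (fun j => algebraMap A K (s j.1)) (fun j => hAV _)
    (fun j => hsB j.1 j.2)
  have hBV : B.toSubring ≤ V.toSubring := fun b hb => h2 b hb
  set L := lo V.toSubring B.toSubring with hL
  have hsL : ∀ j, algebraMap A K (s j) ∈ L := by
    intro j
    by_cases hj : s j = 0
    · rw [hj, map_zero]
      exact L.zero_mem
    · exact h5 ⟨j, hj⟩
  have hadL : ∀ z ∈ Algebra.adjoin k (Set.range s), algebraMap A K z ∈ L := by
    intro z hz
    induction hz using Algebra.adjoin_induction with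
    | mem z hz =>
      obtain ⟨j, rfl⟩ := hz
      exact hsL j
    | algebraMap c =>
      rw [← IsScalarTower.algebraMap_apply]
      exact le_lo _ _ (B.algebraMap_mem c)
    | add x y _ _ hx hy => rw [map_add]; exact L.add_mem hx hy
    | mul x y _ _ hx hy => rw [map_mul]; exact L.mul_mem hx hy
  have hAL : ∀ z : A, algebraMap A K z ∈ L := by
    intro z
    apply h4
    obtain ⟨P, hP, hP0⟩ := hA z
    let φ : Algebra.adjoin k (Set.range s) →+* L :=
      ((algebraMap A K).comp (Algebra.adjoin k (Set.range s)).val.toRingHom).codRestrict L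
        fun y => hadL y y.2
    refine ⟨P.map φ, hP.map φ, ?_⟩
    rw [eval₂_map]
    have e1 : (algebraMap L K).comp φ = (algebraMap A K).comp
        (algebraMap (Algebra.adjoin k (Set.range s)) A) := rfl
    rw [e1, ← hom_eval₂, hP0, map_zero]
  have hlocR : IsLocalRing R := IsLocalization.AtPrime.isLocalRing R q
  have hRL : ∀ z : R, algebraMap R K z ∈ L := by
    intro z
    obtain ⟨⟨u, v⟩, huv⟩ := IsLocalization.surj q.primeCompl z
    have hv1 : IsUnit (algebraMap A R v) := IsLocalization.map_units R v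
    have hv0 : algebraMap A K v ≠ 0 := by
      rw [IsScalarTower.algebraMap_apply A R K]
      exact (hv1.map (algebraMap R K)).ne_zero
    have hvV : (algebraMap A K v)⁻¹ ∈ V := by
      obtain ⟨w, hw⟩ := hv1.exists_right_inv
      have h6 : algebraMap A K v * algebraMap R K w = 1 := by
        rw [IsScalarTower.algebraMap_apply A R K, ← map_mul, hw, map_one]
      rw [← eq_inv_of_mul_eq_one_right h6]
      exact hRV w
    have h6 := congrArg (algebraMap R K) huv
    rw [map_mul, ← IsScalarTower.algebraMap_apply A R K, ← IsScalarTower.algebraMap_apply A R K]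
      at h6
    have h7 : algebraMap R K z = algebraMap A K u * (algebraMap A K v)⁻¹ := by
      rw [← h6, mul_assoc, mul_inv_cancel₀ hv0, mul_one]
    rw [h7]
    exact L.mul_mem (hAL u) (inv_mem_lo hBV (hAL v) hv0 hvV)
  exact lu_of_chart h1 h2 h3 hRL fun c => ⟨algebraMap A R (algebraMap k A c), by
    rw [← IsScalarTower.algebraMap_apply A R K, ← IsScalarTower.algebraMap_apply k A K]⟩

end main

end Pool.Agent.N98.RV
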