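import Pool.Agent.N98.RV.RelF
import Pool.Agent.N98.RV.LUMain
import Pool.Agent.N98.T2.Reg

/-!
Base rings which depend on the family: locally monomial valuations, and two-dimensional regular
local rings.
-/

set_option autoImplicit false
set_option linter.unusedVariables false
set_option linter.unusedSectionVars false

universe u

namespace Pool.Agent.N98.RV

open IsLocalRing Pool.Agent.W418.LU2

/-- Locally monomial valuations. -/
def MnzE (k : Type u) {E : Type u} [CommRing k] [Field E] [Algebra k E]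
    (V : ValuationSubring E) : Prop :=
  ∀ (n : ℕ) (h : Fin n → E), (∀ j, h j ≠ 0) →
    ∃ (A : Type u) (_ : CommRing A) (_ : Algebra k A) (_ : Algebra A E)
      (_ : IsScalarTower k A E) (_ : IsFractionRing A E) (m : ℕ) (x : Fin m → A),
      Algebra.EssFiniteType k A ∧ (∀ a : A, algebraMap A E a ∈ V) ∧ IsSNC x ∧ (∀ i, x i ≠ 0) ∧
      ∀ j, ∃ f g, IsMonomialSum V x f ∧ IsMonomialSum V x g ∧ h j = f / g

/-- The rings essentially of finite type over `k`, of local type at the centre of `V`. -/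
def Adm (k : Type u) {E : Type u} [CommRing k] [Field E] [Algebra k E]
    (V : ValuationSubring E) : Set (Subring E) :=
  {P | IsNoetherianRing P ∧ (∀ c : k, algebraMap k E c ∈ P) ∧ (∀ a ∈ P, a ∈ V) ∧
    ∃ G : Finset E, (∀ g ∈ G, g ∈ P) ∧
      P ≤ lo V.toSubring (Subring.closure (((algebraMap k E).range : Set E) ∪ G))}

variable {k E : Type u} [CommRing k] [Field E] [Algebra k E]

theorem hasF_of_mnz [IsNoetherianRing k] {V : ValuationSubring E} (h : MnzE k V) :
    HasF (Adm k V) ({V} : Set (ValuationSubring E)) := by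
  classical
  intro H _ h' hh'
  obtain ⟨A0, i1, i2, i3, i4, i5, m, x, hfg, hAV0, hsnc, hx0, hsum⟩ := h (Fintype.card H)
    (fun j => h' ((Fintype.equivFin H).symm j)) fun j => hh' _
  let P : Subring E := (algebraMap A0 E).range
  have hPadm : P ∈ Adm k V := by
    have hn : IsNoetherianRing A0 := Algebra.EssFiniteType.isNoetherianRing k A0
    refine ⟨isNoetherianRing_range (algebraMap A0 E), fun c => ⟨algebraMap k A0 c, by
      rw [← IsScalarTower.algebraMap_apply]⟩, ?_, ?_⟩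
    · rintro _ ⟨a, rfl⟩
      exact hAV0 a
    · obtain ⟨σ, hσ⟩ := (Algebra.essFiniteType_iff k A0).1 hfg
      refine ⟨σ.image (algebraMap A0 E), ?_, ?_⟩
      · intro g hg
        obtain ⟨a, -, rfl⟩ := Finset.mem_image.1 hg
        exact ⟨a, rfl⟩
      · have key : ∀ z ∈ Algebra.adjoin k (σ : Set A0), algebraMap A0 E z ∈
            Subring.closure (((algebraMap k E).range : Set E) ∪
              (σ.image (algebraMap A0 E) : Finset E)) := by
          intro z hz
          induction hz using Algebra.adjoin_induction with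
          | mem z hz =>
            exact Subring.subset_closure (Or.inr (Finset.mem_coe.2
              (Finset.mem_image_of_mem _ hz)))
          | algebraMap c =>
            rw [← IsScalarTower.algebraMap_apply]
            exact Subring.subset_closure (Or.inl ⟨c, rfl⟩)
          | add x y _ _ hx hy => rw [map_add]; exact Subring.add_mem _ hx hy
          | mul x y _ _ hx hy => rw [map_mul]; exact Subring.mul_mem _ hx hy
        rintro _ ⟨a, rfl⟩
        obtain ⟨t, ht, htu, hat⟩ := hσ a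
        have ht0 : algebraMap A0 E t ≠ 0 := (htu.map (algebraMap A0 E)).ne_zero
        refine ⟨_, key _ hat, _, key _ ht, ht0, ?_, ?_⟩
        · obtain ⟨t', ht'⟩ := htu.exists_right_inv
          have h6 : algebraMap A0 E t * algebraMap A0 E t' = 1 := by
            rw [← map_mul, ht', map_one]
          rw [← eq_inv_of_mul_eq_one_right h6]
          exact hAV0 t'
        · rw [map_mul, mul_assoc, mul_inv_cancel₀ ht0, mul_one]
  choose f g hf hg hfg' using hsum
  have hinj : Function.Injective (algebraMap A0 E) := IsFractionRing.injective A0 E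
  let A : Subalgebra P E := ⊥
  have hA : ∀ y, y ∈ A ↔ ∃ a, algebraMap A0 E a = y := by
    intro y
    rw [Algebra.mem_bot]
    constructor
    · rintro ⟨⟨_, a, rfl⟩, rfl⟩
      exact ⟨a, rfl⟩
    · rintro ⟨a, rfl⟩
      exact ⟨⟨_, a, rfl⟩, rfl⟩
  have hAm : ∀ a, algebraMap A0 E a ∈ A := fun a => (hA _).2 ⟨a, rfl⟩
  have hAV : ∀ y ∈ A, y ∈ V := by
    intro y hy
    obtain ⟨a, rfl⟩ := (hA y).1 hy
    exact hAV0 a
  let X : Fin m → E := fun i => algebraMap A0 E (x i)
  have hX0 : ∀ i, X i ≠ 0 := fun i h0 => hx0 i (hinj (h0.trans (map_zero _).symm))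
  -- the sums
  let J := Bool × Fin (Fintype.card H)
  let F : J → E := fun p => if p.1 then f p.2 else g p.2
  have hF : ∀ p, IsMonomialSum V x (F p) := by
    rintro ⟨b, j⟩
    cases b
    · exact hg j
    · exact hf j
  choose hF0 s c a hc hFs hFm using hF
  let G := Σ p : J, Fin (s p)
  have hft : Algebra.FiniteType P A := (Subalgebra.fg_iff_finiteType _).1 Subalgebra.fg_bot
  have hreg : RegC A.toSubring X :=
    regC_of_snc (algebraMap A0 E) hinj hA hX0 hsnc
  -- the coefficients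
  let C : G → E := fun q => algebraMap A0 E (c q.1 q.2)
  have hCv : ∀ q, V.valuation (C q) = 1 := fun q => hc q.1 q.2
  have hC0 : ∀ q, C q ≠ 0 := by
    intro q h0
    have h1 := hCv q
    rw [h0, map_zero] at h1
    exact zero_ne_one h1
  have hCV : ∀ q, (C q)⁻¹ ∈ V := by
    intro q
    rw [← V.valuation_le_one_iff, map_inv₀, hCv, inv_one]
  have hCA : ∀ q, C q ∈ A := fun q => hAm _
  let d : E := ∏ q, C q
  have hd0 : d ≠ 0 := Finset.prod_ne_zero_iff.2 fun q _ => hC0 q
  have hdA : d ∈ A := A.prod_mem fun q _ => hCA q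
  have hdV : d⁻¹ ∈ V := by
    change (∏ q, C q)⁻¹ ∈ V
    rw [← Finset.prod_inv_distrib]
    exact V.toSubring.prod_mem fun q _ => hCV q
  have hAV' : ∀ a ∈ adj A d⁻¹, a ∈ V := fun a ha =>
    adj_induction A d⁻¹ (p := fun a => a ∈ V) hAV (fun a b ha hb => V.add_mem _ _ ha hb)
      (fun a ha => V.mul_mem _ _ ha hdV) a ha
  have hreg' : RegC (adj A d⁻¹).toSubring X := by
    have h1 := hreg.loc hdA hd0
    rwa [adj_toSubring]
  have hCinv : ∀ q, (C q)⁻¹ ∈ adj A d⁻¹ := by
    intro q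
    have e : (C q)⁻¹ = d⁻¹ * ∏ i ∈ Finset.univ.erase q, C i := by
      change (C q)⁻¹ = (∏ j, C j)⁻¹ * _
      rw [← Finset.mul_prod_erase Finset.univ C (Finset.mem_univ q), mul_inv, mul_assoc,
        inv_mul_cancel₀ (Finset.prod_ne_zero_iff.2 fun i _ => hC0 i), mul_one]
    rw [e]
    exact Subalgebra.mul_mem _ (self_mem_adj _ _)
      (Subalgebra.prod_mem _ fun i _ => le_adj _ _ (hCA i))
  obtain ⟨A', I', hI', x', h1, h2, h3, h4, h5⟩ := exists_unitize (ft_adj hft d⁻¹) hreg' hAV'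
    (G := G) (J := J) (fun q => C q * ∏ i, X i ^ a q.1 q.2 i)
    (fun q => ⟨a q.1 q.2, C q, hC0 q, le_adj _ _ (hCA q), hCinv q, rfl⟩)
    (fun p => Finset.univ.filter fun q => q.1 = p) F hF0 (by
      intro p
      rw [hFs p]
      symm
      refine Finset.sum_bij' (fun q hq => (Finset.mem_filter.1 hq).2 ▸ q.2)
        (fun l _ => ⟨p, l⟩) ?_ ?_ ?_ ?_ ?_
      · intro q hq
        exact Finset.mem_univ _
      · intro l _
        exact Finset.mem_filter.2 ⟨Finset.mem_univ _, rfl⟩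
      · rintro ⟨p', l⟩ hq
        obtain rfl := (Finset.mem_filter.1 hq).2
        rfl
      · intro l _
        rfl
      · rintro ⟨p', l⟩ hq
        obtain rfl := (Finset.mem_filter.1 hq).2
        rfl) (by
      rintro p ⟨p', l⟩ hq
      obtain rfl := (Finset.mem_filter.1 hq).2
      have h6 := hFm p' l
      have h7 := hCv ⟨p', l⟩
      rw [← V.valuation_le_one_iff, map_div₀, map_mul, h7, one_mul]
      have h8 : V.valuation (F p') ≠ 0 := (Valuation.ne_zero_iff _).2 (hF0 p')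
      exact (div_le_one₀ (zero_lt_iff.2 h8)).2 h6)
  refine ⟨P, hPadm, Unit, I', inferInstance, hI', singleLM h1 h3 h4, ?_, ?_⟩
  · intro b
    obtain ⟨γ1, hγ1⟩ := h5 (true, Fintype.equivFin H b)
    obtain ⟨γ2, hγ2⟩ := h5 (false, Fintype.equivFin H b)
    have e : h' b = F (true, Fintype.equivFin H b) / F (false, Fintype.equivFin H b) := by
      have := hfg' (Fintype.equivFin H b)
      rw [Equiv.symm_apply_apply] at this
      exact this
    rw [e]
    exact IsB.div ⟨γ1, fun _ => hγ1⟩ ⟨γ2, fun _ => hγ2⟩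
  · rintro - y
    obtain ⟨a, b, hb, hy⟩ := IsFractionRing.div_surjective A0 y
    refine ⟨algebraMap A0 E a, h2 (le_adj _ _ (hAm a)), algebraMap A0 E b,
      h2 (le_adj _ _ (hAm b)), ?_, by rw [← hy, div_eq_mul_inv]⟩
    intro h0
    have : Nontrivial A0 := (algebraMap A0 E).domain_nontrivial
    exact nonZeroDivisors.ne_zero hb (hinj (h0.trans (map_zero _).symm))


lemma bot_toSubring (P : Subring E) : (⊥ : Subalgebra P E).toSubring = P := by
  ext y
  change y ∈ (⊥ : Subalgebra P E) ↔ y ∈ P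
  rw [Algebra.mem_bot]
  constructor
  · rintro ⟨a, rfl⟩
    exact a.2
  · intro hy
    exact ⟨⟨y, hy⟩, rfl⟩

/-- A single ring. -/
lemma hasF_aux {𝒮 : Set (Subring E)} {V : ValuationSubring E}
    (h : ∀ (H : Type) [Fintype H] (f : H → E), (∀ t, f t ≠ 0) →
      ∃ (P : Subring E) (I : Type) (_ : Fintype I) (X : I → E), P ∈ 𝒮 ∧ (∀ a ∈ P, a ∈ V) ∧
        RegC P X ∧ (∀ e : E, ∃ a ∈ P, ∃ b ∈ P, b ≠ 0 ∧ e = a * b⁻¹) ∧
        ∀ t, ∃ u, u ≠ 0 ∧ u ∈ P ∧ u⁻¹ ∈ P ∧ ∃ γ : I → ℤ, f t = u * ∏ i, X i ^ γ i) :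
    HasF 𝒮 ({V} : Set (ValuationSubring E)) := by
  intro H _ f hf
  obtain ⟨P, I, hI, X, hP, hPV, hreg, hfr, hmon⟩ := h H f hf
  have hb := bot_toSubring P
  have hbm : ∀ y, y ∈ (⊥ : Subalgebra P E) ↔ y ∈ P := by
    intro y
    rw [← Subalgebra.mem_toSubring, hb]
  have hft : Algebra.FiniteType P (⊥ : Subalgebra P E) :=
    (Subalgebra.fg_iff_finiteType _).1 Subalgebra.fg_bot
  have hreg' : RegC (⊥ : Subalgebra P E).toSubring X := by rwa [hb]
  refine ⟨P, hP, Unit, I, inferInstance, hI,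
    singleLM hft hreg' (V := V) fun a ha => hPV a ((hbm a).1 ha), ?_, ?_⟩
  · intro t
    obtain ⟨u, hu0, hu, hui, γ, e⟩ := hmon t
    exact ⟨γ, fun _ => ⟨u, hu0, (hbm _).2 hu, (hbm _).2 hui, e⟩⟩
  · rintro - y
    obtain ⟨a, ha, b, hb, hb0, e⟩ := hfr y
    exact ⟨a, (hbm _).2 ha, b, (hbm _).2 hb, hb0, e⟩

/-- Two-dimensional regular local rings. -/
theorem hasF_of_dim_two [IsDomain k] [IsRegularLocalRing k] [IsFractionRing k E]
    (hdim : ringKrullDim k = 2) {V : ValuationSubring E} (hV : ∀ a : k, algebraMap k E a ∈ V)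
    (hV' : ∀ a : k, a ∈ nonunits k ↔ V.valuation (algebraMap k E a) < 1)
    (hfin : ∀ (𝔭 : Ideal k) [𝔭.IsPrime], 𝔭 ≠ ⊥ →
      Module.Finite (k ⧸ 𝔭) (integralClosure (k ⧸ 𝔭) (FractionRing (k ⧸ 𝔭)))) :
    HasF (Adm k V) ({V} : Set (ValuationSubring E)) := by
  obtain ⟨x, y, hxy⟩ := T2.par_of_regular (E := E) hdim V hV hV'
  refine hasF_aux fun H _ f hf => ?_
  obtain ⟨P, I, hI, X, hn, hPV, hP0, ⟨G, hG1, hG2⟩, hreg, hmon⟩ :=
    T2.exists_mono (k := k) hxy (fun e => Iff.rfl) hfin f hf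
  refine ⟨P, I, hI, X, ⟨hn, fun c => hP0 ⟨c, rfl⟩, hPV, G, hG1, hG2⟩, hPV, hreg, ?_, hmon⟩
  intro e
  obtain ⟨a, b, hb, hy⟩ := IsFractionRing.div_surjective k e
  refine ⟨algebraMap k E a, hP0 ⟨a, rfl⟩, algebraMap k E b, hP0 ⟨b, rfl⟩, ?_,
    by rw [← hy, div_eq_mul_inv]⟩
  intro h0
  exact nonZeroDivisors.ne_zero hb (IsFractionRing.injective k E (h0.trans (map_zero _).symm))

end Pool.Agent.N98.RV
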