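import Pool.Agent.N98.RV.FamBase

/-!
Regular local rings of dimension at most two.
-/

set_option autoImplicit false
set_option linter.unusedVariables false
set_option linter.unusedSectionVars false

universe u

namespace Pool.Agent.N98.RV

open IsLocalRing Pool.Agent.W418.LU2

variable {k E : Type u} [CommRing k] [Field E] [Algebra k E]

theorem hasF_of_dim_le_one [IsDomain k] [IsRegularLocalRing k] [IsFractionRing k E]
    (hdim : ringKrullDim k ≤ 1) {V : ValuationSubring E} (hV : ∀ a : k, algebraMap k E a ∈ V)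
    (hV' : ∀ a : k, a ∈ nonunits k ↔ V.valuation (algebraMap k E a) < 1) :
    HasF (Adm k V) ({V} : Set (ValuationSubring E)) := by
  classical
  have hinj : Function.Injective (algebraMap k E) := IsFractionRing.injective k E
  have h1 : (maximalIdeal k).spanFinrank ≤ 1 := by
    have := IsRegularLocalRing.spanFinrank_maximalIdeal (R := k)
    rw [← this] at hdim
    exact_mod_cast hdim
  obtain ⟨X, hX⟩ : ∃ X, maximalIdeal k = Ideal.span {X} := by
    have hfg : (maximalIdeal k).FG := IsNoetherian.noetherian _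
    have h2 := Submodule.span_generators (maximalIdeal k)
    have h3 : (maximalIdeal k).generators.ncard ≤ 1 :=
      (Submodule.FG.generators_ncard hfg).le.trans h1
    have hfs : (maximalIdeal k).generators.Finite := Submodule.FG.finite_generators hfg
    rcases Set.eq_empty_or_nonempty (maximalIdeal k).generators with h4 | ⟨X, hX⟩
    · refine ⟨0, ?_⟩
      rw [← h2, h4, Ideal.span_singleton_eq_bot.2 rfl]
      exact Submodule.span_empty
    · refine ⟨X, ?_⟩
      rw [← h2]
      have h5 : (maximalIdeal k).generators = {X} := by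
        apply Set.eq_singleton_iff_unique_mem.2
        refine ⟨hX, fun Y hY => ?_⟩
        exact (Set.ncard_le_one hfs).1 h3 Y hY X hX
      rw [h5]
  let P : Subring E := (algebraMap k E).range
  have hPn : IsNoetherianRing P := isNoetherianRing_range (algebraMap k E)
  have hPV : ∀ a ∈ P, a ∈ V := by
    rintro _ ⟨a, rfl⟩
    exact hV a
  have hinv : ∀ a ∈ P, V.valuation a = 1 → a⁻¹ ∈ P := by
    rintro _ ⟨a, rfl⟩ ha
    have h2 : IsUnit a := by
      by_contra h3
      have := (hV' a).1 h3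
      rw [ha] at this
      exact lt_irrefl _ this
    obtain ⟨b, hb⟩ := h2.exists_right_inv
    refine ⟨b, ?_⟩
    rw [eq_comm]
    apply inv_eq_of_mul_eq_one_right
    rw [← map_mul, hb, map_one]
  have hgen : ∀ a ∈ P, V.valuation a < 1 → ∃ b ∈ P, a = b * algebraMap k E X := by
    rintro _ ⟨a, rfl⟩ ha
    have h2 : a ∈ maximalIdeal k := (hV' a).2 ha
    rw [hX, Ideal.mem_span_singleton] at h2
    obtain ⟨b, rfl⟩ := h2
    exact ⟨_, ⟨b, rfl⟩, by rw [map_mul, mul_comm]⟩
  have hadm : P ∈ Adm k V := by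
    refine ⟨hPn, fun c => ⟨c, rfl⟩, hPV, ∅, by simp, ?_⟩
    intro a ha
    exact le_lo _ _ (Subring.subset_closure (Or.inl ha))
  have hfr : ∀ e : E, ∃ a ∈ P, ∃ b ∈ P, b ≠ 0 ∧ e = a * b⁻¹ := by
    intro e
    obtain ⟨a, b, hb, hy⟩ := IsFractionRing.div_surjective k e
    refine ⟨algebraMap k E a, ⟨a, rfl⟩, algebraMap k E b, ⟨b, rfl⟩, ?_,
      by rw [← hy, div_eq_mul_inv]⟩
    intro h0
    exact nonZeroDivisors.ne_zero hb (hinj (h0.trans (map_zero _).symm))
  by_cases hX0 : X = 0
  · -- a field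
    have hu : ∀ a ∈ P, a ≠ 0 → a⁻¹ ∈ P := by
      intro a ha h0
      refine hinv a ha ((T2.lt_or_one (hPV a ha)).resolve_left fun h2 => ?_)
      obtain ⟨b, hb, e⟩ := hgen a ha h2
      apply h0
      rw [e, hX0, map_zero, mul_zero]
    refine hasF_aux fun H _ f hf => ⟨P, Empty, inferInstance, fun e => e.elim, hadm, hPV, ?_,
      hfr, ?_⟩
    · refine ⟨fun e => e.elim, fun e => e.elim, fun W hW hPW ι _ f hf => ?_⟩
      obtain ⟨𝔮, h𝔮p, h𝔮, -⟩ := exists_center hW hPW
      refine T2.regP_principal hPn hW hPW 𝔮 h𝔮 0 ?_ _ (fun i => (f i).elim)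
        (fun i => (f i).elim) (fun i => (f i).elim) (fun i => (f i).elim)
      rw [Ideal.span_singleton_eq_bot.2 rfl, eq_bot_iff]
      intro a ha
      rw [Ideal.mem_bot]
      by_contra h0
      have h0' : (a : E) ≠ 0 := fun h => h0 (Subtype.ext h)
      exact (h𝔮 a).2 ⟨h0', hPW (hu a a.2 h0')⟩ ha
    · intro t
      obtain ⟨a, ha, b, hb, hb0, e⟩ := hfr (f t)
      have ha0 : a ≠ 0 := by
        rintro rfl
        apply hf t
        rw [e, zero_mul]
      refine ⟨f t, hf t, ?_, ?_, fun e => e.elim, by simp⟩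
      · rw [e]
        exact P.mul_mem ha (hu b hb hb0)
      · rw [e, mul_inv, inv_inv]
        exact P.mul_mem (hu a ha ha0) hb
  · have hD : T2.Dv V P (algebraMap k E X) := by
      refine ⟨hPV, hinv, hPn, ⟨X, rfl⟩, (hV' X).1 ?_, ?_, hgen⟩
      · have : X ∈ maximalIdeal k := by
          rw [hX]
          exact Ideal.mem_span_singleton_self X
        exact this
      · intro h0
        exact hX0 (hinj (h0.trans (map_zero _).symm))
    refine hasF_aux fun H _ f hf => ⟨P, Unit, inferInstance, fun _ => algebraMap k E X, hadm,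
      hPV, hD.regC, hfr, fun t => ?_⟩
    obtain ⟨a, ha, b, hb, hb0, e⟩ := hfr (f t)
    have ha0 : a ≠ 0 := by
      rintro rfl
      apply hf t
      rw [e, zero_mul]
    obtain ⟨u, hu, hu1, i, e1⟩ := hD.mono ha ha0
    obtain ⟨v, hv, hv1, i', e2⟩ := hD.mono hb hb0
    have hu0 := T2.ne_zero_of_one hu1
    have hv0 := T2.ne_zero_of_one hv1
    have hui := hD.inv u hu hu1
    have hvi := hD.inv v hv hv1
    refine ⟨u * v⁻¹, mul_ne_zero hu0 (inv_ne_zero hv0), P.mul_mem hu hvi, ?_,
      fun _ => (i : ℤ) - i', ?_⟩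
    · rw [mul_inv, inv_inv]
      exact P.mul_mem hui hv
    · rw [Fintype.prod_unique]
      rw [e, e1, e2, zpow_sub₀ hD.x0, zpow_natCast, zpow_natCast]
      have := hD.x0
      field_simp

/-- Regular local rings of dimension at most two. -/
theorem hasF_of_dim_le_two [IsDomain k] [IsRegularLocalRing k] [IsFractionRing k E]
    (hdim : ringKrullDim k ≤ 2) {V : ValuationSubring E} (hV : ∀ a : k, algebraMap k E a ∈ V)
    (hV' : ∀ a : k, a ∈ nonunits k ↔ V.valuation (algebraMap k E a) < 1)
    (hfin : ∀ (𝔭 : Ideal k) [𝔭.IsPrime], 𝔭 ≠ ⊥ →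
      Module.Finite (k ⧸ 𝔭) (integralClosure (k ⧸ 𝔭) (FractionRing (k ⧸ 𝔭)))) :
    HasF (Adm k V) ({V} : Set (ValuationSubring E)) := by
  by_cases h : ringKrullDim k ≤ 1
  · exact hasF_of_dim_le_one h hV hV'
  · refine hasF_of_dim_two ?_ hV hV' hfin
    have := IsRegularLocalRing.spanFinrank_maximalIdeal (R := k)
    rw [← this] at hdim h ⊢
    have h1 : (maximalIdeal k).spanFinrank ≤ 2 := by exact_mod_cast hdim
    have h2 : ¬ (maximalIdeal k).spanFinrank ≤ 1 := fun h3 => h (by exact_mod_cast h3)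
    have h3 : (maximalIdeal k).spanFinrank = 2 := by omega
    rw [h3]
    rfl

end Pool.Agent.N98.RV
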