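import Pool.Agent.N98.RV.Hyp
import Pool.Agent.N98.RV.TnF

/-!
Hypersurfaces of bounded degree over a base which depends on the family.
-/

set_option autoImplicit false
set_option linter.unusedVariables false
set_option linter.unusedSimpArgs false
set_option linter.unusedSectionVars false

universe u

open Pool.Agent.W418.LU2

namespace Pool.Agent.N98.RV

section main

variable {E K : Type u} [Field E] [Field K] [Algebra E K] {n : ℕ}

/-- **Hypersurfaces of bounded degree.** -/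
theorem hypF_aux (K' : Type u) [Field K'] [Algebra E K'] [Algebra (MvPolynomial (Fin n) E) K']
    [IsScalarTower E (MvPolynomial (Fin n) E) K'] [IsFractionRing (MvPolynomial (Fin n) E) K']
    {𝒮 : Set (Subring E)} (h𝒮 : ∀ k ∈ 𝒮, IsNoetherianRing k)
    {𝒲 : Set (ValuationSubring E)} (hE : HasF 𝒮 𝒲)
    (hne : (exV K 𝒲).Nonempty) (D : ℕ) (hD : 1 ≤ D)
    (hchar : ∀ k ∈ 𝒮, IsUnit ((Nat.factorial (D ^ 2 ^ (n - 1)) : ℕ) : k)) (x : Fin n → K)
    (htop : IntermediateField.adjoin E (Set.range x) = ⊤)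
    (f : MvPolynomial (Fin n) E) (hf : Irreducible f) (hfD : f.totalDegree ≤ D)
    (hker : ∀ g : MvPolynomial (Fin n) E, MvPolynomial.aeval x g = 0 ↔ f ∣ g)
    (B : Type) [Finite B] (P : B → MvPolynomial (Fin n) E)
    (hP : ∀ b, MvPolynomial.aeval x (P b) ≠ 0) (hPD : ∀ b, (P b).totalDegree ≤ D) :
    ∃ (k : Subring E) (_ : k ∈ 𝒮) (T I : Type) (_ : Finite T) (_ : Fintype I)
      (M : LM (exV K 𝒲) (⊥ : Subalgebra k K) ⊤ T I),
      Frc M ∧ ∀ b, IsBr M (MvPolynomial.aeval x (P b)) := by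
  classical
  let R0 := MvPolynomial (Fin n) E
  obtain ⟨hX1, hX2, hX3⟩ := frac_top (E := E) (n := n) K'
  have hEC : ∀ e : E, algebraMap E K' e = algebraMap R0 K' (MvPolynomial.C e) := fun e =>
    IsScalarTower.algebraMap_apply E R0 K' e
  -- the valuation rings
  have hne' : (exV K' 𝒲).Nonempty := by
    obtain ⟨Q, π, hs, hQ, hinv, hg, hun, hrep⟩ := exists_loc (k := E) x htop f hf hker K'
    have hK : ∀ x : K', (∃ a b : Q, π b ≠ 0 ∧ x * b = a) ∨
        (∃ a b : Q, π b ≠ 0 ∧ x⁻¹ * b = a) := by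
      intro x
      have key : ∀ x : K', x ∈ Q → ∃ a b : Q, π b ≠ 0 ∧ x * b = a := fun x hx =>
        ⟨⟨x, hx⟩, 1, by rw [map_one]; exact one_ne_zero, by simp⟩
      exact (hQ x).imp (key x) (key _)
    have hEQ : ∀ e : E, algebraMap E K' e ∈ Q ∧ pq π (algebraMap E K' e) = algebraMap E K e := by
      intro e
      have e1 : algebraMap E K' e = algebraMap R0 K' (MvPolynomial.C e) := hEC e
      rw [e1]
      refine ⟨(hg _).1, ?_⟩
      rw [(hg _).2, MvPolynomial.aeval_C]
    refine ⟨pullV π hK hne.some, ?_⟩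
    change (pullV π hK _).comap (algebraMap E K') ∈ 𝒲
    rw [pullV_comap π hK hEQ _]
    exact hne.some_mem
  obtain ⟨k, hk, T, I, hT, hI, M, hFr, hMb, hMd⟩ := tnF E h𝒮 hE n D hD (fun _ => hchar) K'
    hne'
    (fun i => algebraMap R0 K' (MvPolynomial.X i)) hX2 hX3 (Option B)
    (fun o => o.elim f P) (by
      rintro (_ | b)
      · exact hf.ne_zero
      · intro h
        have h' : P b = 0 := h
        apply hP b
        rw [h', map_zero]) (by
      rintro (_ | b)
      · exact hfD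
      · exact hPD b)
  have hkn := h𝒮 k hk
  have hs0 : IsScalarTower k E K := IsScalarTower.of_algebraMap_eq fun r => rfl
  have hs1 : IsScalarTower k E K' := IsScalarTower.of_algebraMap_eq fun r => rfl
  have hs2 : IsScalarTower k R0 K' := IsScalarTower.of_algebraMap_eq fun r => hEC r
  obtain ⟨Q, π, hs, hQ, hinv, hg, hun, hrep⟩ := exists_loc (k := k) x htop f hf hker K'
  have hK : ∀ x : K', (∃ a b : Q, π b ≠ 0 ∧ x * b = a) ∨
      (∃ a b : Q, π b ≠ 0 ∧ x⁻¹ * b = a) := by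
    intro x
    have key : ∀ x : K', x ∈ Q → ∃ a b : Q, π b ≠ 0 ∧ x * b = a := fun x hx =>
      ⟨⟨x, hx⟩, 1, by rw [map_one]; exact one_ne_zero, by simp⟩
    exact (hQ x).imp (key x) (key _)
  have hEQ : ∀ e : E, algebraMap E K' e ∈ Q ∧ pq π (algebraMap E K' e) = algebraMap E K e := by
    intro e
    have e1 : algebraMap E K' e = algebraMap R0 K' (MvPolynomial.C e) := hEC e
    rw [e1]
    refine ⟨(hg _).1, ?_⟩
    rw [(hg _).2, MvPolynomial.aeval_C]
  have h𝒲 : ∀ V ∈ exV K 𝒲, pullV π hK V ∈ exV K' 𝒲 := by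
    intro V hV
    change (pullV π hK V).comap (algebraMap E K') ∈ 𝒲
    rw [pullV_comap π hK hEQ V]
    exact hV
  have hf0 : algebraMap R0 K' f ≠ 0 := by
    intro h
    exact hf.ne_zero (IsFractionRing.injective R0 K' (h.trans (map_zero _).symm))
  have hMf : IsBr M (algebraMap R0 K' f) := by
    have := hMb none
    rw [← hX1]
    exact this
  have hpf : pq π (algebraMap R0 K' f) = 0 := by
    rw [(hg f).2]
    exact (hker f).2 dvd_rfl
  have hdom : ∀ t, M.A t ≤ Q → ∀ q ∈ Q, ∃ a ∈ M.A t, ∃ b ∈ M.A t, pq π b ≠ 0 ∧ q * b = a := by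
    intro t ht q hq
    have hne : ∀ {b : K'}, pq π b ≠ 0 → b ≠ 0 := by
      rintro b hb rfl
      exact hb (pq_zero π)
    let W := lo Q.toSubring (M.A t).toSubring
    have hW : ∀ y, y ∈ W ↔ ∃ a ∈ M.A t, ∃ b ∈ M.A t, pq π b ≠ 0 ∧ y * b = a := by
      intro y
      constructor
      · rintro ⟨a, ha, b, hb, hb0, hbQ, rfl⟩
        exact ⟨a, ha, b, hb, pq_ne π hb0 (ht hb) hbQ, by
          rw [mul_assoc, inv_mul_cancel₀ hb0, mul_one]⟩
      · rintro ⟨a, ha, b, hb, hb0, hab⟩
        refine ⟨a, ha, b, hb, hne hb0, hinv b (ht hb) hb0, ?_⟩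
        rw [← hab, mul_assoc, mul_inv_cancel₀ (hne hb0), mul_one]
    obtain ⟨hd1, hd2⟩ := hMd t
    have hAW : ∀ a ∈ M.A t, a ∈ W := fun a ha => le_lo _ _ ha
    have hWinv : ∀ b ∈ M.A t, pq π b ≠ 0 → b⁻¹ ∈ W := fun b hb hb0 =>
      inv_mem_lo ht (hAW b hb) (hne hb0) (hinv b (ht hb) hb0)
    -- constants
    have hWE : ∀ e : E, algebraMap E K' e ∈ W := by
      intro e
      obtain ⟨a, b, ha, hb, hb0, he⟩ := hd1 e
      have hbπ : pq π (algebraMap E K' b) ≠ 0 := by
        have e1 : algebraMap E K' b = algebraMap R0 K' (MvPolynomial.C b) := hEC b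
        rw [e1, (hg _).2, MvPolynomial.aeval_C]
        exact (_root_.map_ne_zero _).2 hb0
      rw [he, map_mul, map_inv₀]
      exact W.mul_mem (hAW _ ha) (hWinv _ hb hbπ)
    -- variables
    have hWX : ∀ i : Fin n, algebraMap R0 K' (MvPolynomial.X i) ∈ W := by
      intro i
      rcases hd2 i with h | h
      · exact hAW _ h
      · have h1 : algebraMap R0 K' (MvPolynomial.X i) ≠ 0 := by
          intro h0
          exact MvPolynomial.X_ne_zero i (IsFractionRing.injective R0 K' (h0.trans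
            (map_zero _).symm))
        have h2 : pq π (algebraMap R0 K' (MvPolynomial.X i))⁻¹ ≠ 0 := by
          refine pq_ne π (inv_ne_zero h1) (ht h) ?_
          rw [inv_inv]
          exact (hg _).1
        have h3 := hWinv _ h h2
        rwa [inv_inv] at h3
    have hWR : ∀ r : R0, algebraMap R0 K' r ∈ W := by
      intro r
      induction r using MvPolynomial.induction_on with
      | C a => rw [← hEC]; exact hWE a
      | add p q hp hq => rw [map_add]; exact W.add_mem hp hq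
      | mul_X p i hp => rw [map_mul]; exact W.mul_mem hp (hWX i)
    obtain ⟨r, s, hs', hrs⟩ := hrep q hq
    have hsW : (algebraMap R0 K' s)⁻¹ ∈ W := by
      obtain ⟨a, ha, b, hb, hb0, hab⟩ := (hW _).1 (hWR s)
      have hb1 : b ≠ 0 := by
        rintro rfl
        exact hb0 (pq_zero π)
      have ha0 : pq π a ≠ 0 := by
        rw [← hab, pq_mul π (hg s).1 (ht hb), (hg s).2]
        exact mul_ne_zero hs' hb0
      have e : (algebraMap R0 K' s)⁻¹ = b * a⁻¹ := by
        rw [← hab, mul_inv, mul_comm, mul_assoc, inv_mul_cancel₀ hb1, mul_one]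
      rw [e]
      exact W.mul_mem (hAW _ hb) (hWinv a ha ha0)
    rw [← hW]
    have hs0 : algebraMap R0 K' s ≠ 0 := by
      intro h
      apply hs'
      have : s = 0 := IsFractionRing.injective R0 K' (h.trans (map_zero _).symm)
      rw [this, map_zero]
    have e : q = algebraMap R0 K' r * (algebraMap R0 K' s)⁻¹ := by
      rw [← hrs, mul_assoc, mul_inv_cancel₀ hs0, mul_one]
    rw [e]
    exact W.mul_mem (hWR r) hsW
  obtain ⟨T', I', hT', hI', M', hFr', hM'⟩ := cut π hne hK h𝒲 hs hQ hinv (algebraMap R0 K' f) (hg f).1 hf0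
    hpf hun M hMf hdom
  refine ⟨k, hk, T', I', hT', hI', M', hFr', fun b => ?_⟩
  have h1 : IsBr M (algebraMap R0 K' (P b)) := by
    have := hMb (some b)
    rw [← hX1]
    exact this
  have h2 := hM' _ (hg (P b)).1 (by rw [(hg (P b)).2]; exact hP b) h1
  rwa [(hg (P b)).2] at h2

/-- **Hypersurfaces of bounded degree.** -/
theorem hypF {𝒮 : Set (Subring E)} (h𝒮 : ∀ k ∈ 𝒮, IsNoetherianRing k)
    {𝒲 : Set (ValuationSubring E)} (hE : HasF 𝒮 𝒲)
    (hne : (exV K 𝒲).Nonempty) (D : ℕ) (hD : 1 ≤ D)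
    (hchar : ∀ k ∈ 𝒮, IsUnit ((Nat.factorial (D ^ 2 ^ (n - 1)) : ℕ) : k)) (x : Fin n → K)
    (htop : IntermediateField.adjoin E (Set.range x) = ⊤)
    (f : MvPolynomial (Fin n) E) (hf : Irreducible f) (hfD : f.totalDegree ≤ D)
    (hker : ∀ g : MvPolynomial (Fin n) E, MvPolynomial.aeval x g = 0 ↔ f ∣ g)
    (B : Type) [Finite B] (P : B → MvPolynomial (Fin n) E)
    (hP : ∀ b, MvPolynomial.aeval x (P b) ≠ 0) (hPD : ∀ b, (P b).totalDegree ≤ D) :
    ∃ (k : Subring E) (_ : k ∈ 𝒮) (T I : Type) (_ : Finite T) (_ : Fintype I)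
      (M : LM (exV K 𝒲) (⊥ : Subalgebra k K) ⊤ T I),
      Frc M ∧ ∀ b, IsBr M (MvPolynomial.aeval x (P b)) :=
  hypF_aux (FractionRing (MvPolynomial (Fin n) E)) h𝒮 hE hne D hD hchar x htop f hf hfD hker B P
    hP hPD

end main

end Pool.Agent.N98.RV
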