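import Pool.Agent.N98.RV.Single

/-!
Locally monomial valuations.
-/

set_option autoImplicit false
set_option linter.unusedVariables false
set_option linter.unusedSectionVars false

universe u

namespace Pool.Agent.N98.RV

open IsLocalRing Pool.Agent.W418.LU2

/-- Regular rings with a strict normal crossings divisor. -/
def IsSNC {A : Type u} [CommRing A] {m : ℕ} (x : Fin m → A) : Prop :=
  ∀ (P : Ideal A) [P.IsPrime], IsRegularLocalRing (Localization.AtPrime P) ∧
    ∀ c : Fin m → Localization.AtPrime P, (∀ i, x i ∉ P → c i = 0) →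
      ∑ i, c i * algebraMap A (Localization.AtPrime P) (x i) ∈
        maximalIdeal (Localization.AtPrime P) ^ 2 →
      ∀ i, c i ∈ maximalIdeal (Localization.AtPrime P)

/-- Sums of terms which are not of smaller value. -/
def IsMonomialSum {A E : Type u} [CommRing A] [Field E] [Algebra A E] (V : ValuationSubring E)
    {m : ℕ} (x : Fin m → A) (f : E) : Prop :=
  f ≠ 0 ∧ ∃ (s : ℕ) (c : Fin s → A) (a : Fin s → Fin m → ℤ),
    (∀ l, V.valuation (algebraMap A E (c l)) = 1) ∧
    f = ∑ l, algebraMap A E (c l) * ∏ i, algebraMap A E (x i) ^ a l i ∧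
    ∀ l, V.valuation (∏ i, algebraMap A E (x i) ^ a l i) ≤ V.valuation f

/-- Locally monomial valuations. -/
def Mnz (k : Type u) {E : Type u} [CommRing k] [Field E] [Algebra k E]
    (V : ValuationSubring E) : Prop :=
  ∀ (n : ℕ) (h : Fin n → E), (∀ j, h j ≠ 0) →
    ∃ (A : Type u) (_ : CommRing A) (_ : Algebra k A) (_ : Algebra A E)
      (_ : IsScalarTower k A E) (_ : IsFractionRing A E) (m : ℕ) (x : Fin m → A),
      Algebra.FiniteType k A ∧ (∀ a : A, algebraMap A E a ∈ V) ∧ IsSNC x ∧ (∀ i, x i ≠ 0) ∧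
      ∀ j, ∃ f g, IsMonomialSum V x f ∧ IsMonomialSum V x g ∧ h j = f / g

variable {k E : Type u} [CommRing k] [Field E] [Algebra k E]

theorem hasRM_of_mnz {V : ValuationSubring E} (h : Mnz k V) :
    HasRM k ({V} : Set (ValuationSubring E)) := by
  classical
  intro H _ h' hh'
  obtain ⟨A0, i1, i2, i3, i4, i5, m, x, hfg, hAV0, hsnc, hx0, hsum⟩ := h (Fintype.card H)
    (fun j => h' ((Fintype.equivFin H).symm j)) fun j => hh' _
  choose f g hf hg hfg' using hsum
  have hinj : Function.Injective (algebraMap A0 E) := IsFractionRing.injective A0 E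
  let A : Subalgebra k E := (IsScalarTower.toAlgHom k A0 E).range
  have hA : ∀ y, y ∈ A ↔ ∃ a, algebraMap A0 E a = y := fun y => Iff.rfl
  have hAm : ∀ a, algebraMap A0 E a ∈ A := fun a => ⟨a, rfl⟩
  have hAV : ∀ y ∈ A, y ∈ V := by
    rintro _ ⟨a, rfl⟩
    exact hAV0 a
  let X : Fin m → E := fun i => algebraMap A0 E (x i)
  have hX0 : ∀ i, X i ≠ 0 := fun i h0 => hx0 i (hinj (h0.trans (map_zero _).symm))
  -- the sums
  let J := Bool × Fin (Fintype.card H)
  let F : J → E := fun p => if p.1 then f p.2 else g p.2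
  have hF : ∀ p, IsMonomialSum V x (F p) := by
    rintro ⟨b, j⟩
    cases b
    · exact hg j
    · exact hf j
  choose hF0 s c a hc hFs hFm using hF
  let G := Σ p : J, Fin (s p)
  have hft : Algebra.FiniteType k A := by
    have := hfg
    exact Algebra.FiniteType.of_surjective (IsScalarTower.toAlgHom k A0 E).rangeRestrict
      (AlgHom.rangeRestrict_surjective _)
  have hreg : RegC A.toSubring X :=
    regC_of_snc (algebraMap A0 E) hinj hA hX0 hsnc
  -- the coefficients
  let C : G → E := fun q => algebraMap A0 E (c q.1 q.2)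
  have hCv : ∀ q, V.valuation (C q) = 1 := fun q => hc q.1 q.2
  have hC0 : ∀ q, C q ≠ 0 := by
    intro q h0
    have h1 := hCv q
    rw [h0, map_zero] at h1
    exact zero_ne_one h1
  have hCV : ∀ q, (C q)⁻¹ ∈ V := by
    intro q
    rw [← V.valuation_le_one_iff, map_inv₀, hCv, inv_one]
  have hCA : ∀ q, C q ∈ A := fun q => hAm _
  let d : E := ∏ q, C q
  have hd0 : d ≠ 0 := Finset.prod_ne_zero_iff.2 fun q _ => hC0 q
  have hdA : d ∈ A := A.prod_mem fun q _ => hCA q
  have hdV : d⁻¹ ∈ V := by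
    change (∏ q, C q)⁻¹ ∈ V
    rw [← Finset.prod_inv_distrib]
    exact V.toSubring.prod_mem fun q _ => hCV q
  have hAV' : ∀ a ∈ adj A d⁻¹, a ∈ V := fun a ha =>
    adj_induction A d⁻¹ (p := fun a => a ∈ V) hAV (fun a b ha hb => V.add_mem _ _ ha hb)
      (fun a ha => V.mul_mem _ _ ha hdV) a ha
  have hreg' : RegC (adj A d⁻¹).toSubring X := by
    have h1 := hreg.loc hdA hd0
    rwa [adj_toSubring]
  have hCinv : ∀ q, (C q)⁻¹ ∈ adj A d⁻¹ := by
    intro q
    have e : (C q)⁻¹ = d⁻¹ * ∏ i ∈ Finset.univ.erase q, C i := by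
      change (C q)⁻¹ = (∏ j, C j)⁻¹ * _
      rw [← Finset.mul_prod_erase Finset.univ C (Finset.mem_univ q), mul_inv, mul_assoc,
        inv_mul_cancel₀ (Finset.prod_ne_zero_iff.2 fun i _ => hC0 i), mul_one]
    rw [e]
    exact Subalgebra.mul_mem _ (self_mem_adj _ _)
      (Subalgebra.prod_mem _ fun i _ => le_adj _ _ (hCA i))
  obtain ⟨A', I', hI', x', h1, h2, h3, h4, h5⟩ := exists_unitize (ft_adj hft d⁻¹) hreg' hAV'
    (G := G) (J := J) (fun q => C q * ∏ i, X i ^ a q.1 q.2 i)
    (fun q => ⟨a q.1 q.2, C q, hC0 q, le_adj _ _ (hCA q), hCinv q, rfl⟩)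
    (fun p => Finset.univ.filter fun q => q.1 = p) F hF0 (by
      intro p
      rw [hFs p]
      symm
      refine Finset.sum_bij' (fun q hq => (Finset.mem_filter.1 hq).2 ▸ q.2)
        (fun l _ => ⟨p, l⟩) ?_ ?_ ?_ ?_ ?_
      · intro q hq
        exact Finset.mem_univ _
      · intro l _
        exact Finset.mem_filter.2 ⟨Finset.mem_univ _, rfl⟩
      · rintro ⟨p', l⟩ hq
        obtain rfl := (Finset.mem_filter.1 hq).2
        rfl
      · intro l _
        rfl
      · rintro ⟨p', l⟩ hq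
        obtain rfl := (Finset.mem_filter.1 hq).2
        rfl) (by
      rintro p ⟨p', l⟩ hq
      obtain rfl := (Finset.mem_filter.1 hq).2
      have h6 := hFm p' l
      have h7 := hCv ⟨p', l⟩
      rw [← V.valuation_le_one_iff, map_div₀, map_mul, h7, one_mul]
      have h8 : V.valuation (F p') ≠ 0 := (Valuation.ne_zero_iff _).2 (hF0 p')
      exact (div_le_one₀ (zero_lt_iff.2 h8)).2 h6)
  refine ⟨Unit, I', inferInstance, hI', singleLM h1 h3 h4, ?_, ?_⟩
  · intro b
    obtain ⟨γ1, hγ1⟩ := h5 (true, Fintype.equivFin H b)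
    obtain ⟨γ2, hγ2⟩ := h5 (false, Fintype.equivFin H b)
    have e : h' b = F (true, Fintype.equivFin H b) / F (false, Fintype.equivFin H b) := by
      have := hfg' (Fintype.equivFin H b)
      rw [Equiv.symm_apply_apply] at this
      exact this
    rw [e]
    exact IsB.div ⟨γ1, fun _ => hγ1⟩ ⟨γ2, fun _ => hγ2⟩
  · rintro - y
    obtain ⟨a, b, hb, hy⟩ := IsFractionRing.div_surjective A0 y
    refine ⟨algebraMap A0 E a, h2 (le_adj _ _ (hAm a)), algebraMap A0 E b,
      h2 (le_adj _ _ (hAm b)), ?_, by rw [← hy, div_eq_mul_inv]⟩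
    intro h0
    have : Nontrivial A0 := (algebraMap A0 E).domain_nontrivial
    exact nonZeroDivisors.ne_zero hb (hinj (h0.trans (map_zero _).symm))

end Pool.Agent.N98.RV
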