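import Pool.Agent.N98.RV.Rel
import Pool.Agent.N98.RV.Mnz

/-!
Local uniformization from models.
-/

set_option autoImplicit false
set_option linter.unusedVariables false
set_option linter.unusedSectionVars false

universe u

namespace Pool.Agent.N98.RV

open IsLocalRing Pool.Agent.W418.LU2 Polynomial

section prime

variable {F : Type u} [Field F]

lemma lo_eq_ofPrime {A W : Subring F} (hAW : A ≤ W) (P : Ideal A) [P.IsPrime]
    (hP : ∀ a : A, a ∉ P ↔ (a : F) ≠ 0 ∧ (a : F)⁻¹ ∈ W) :
    lo W A = (LocalSubring.ofPrime A P).toSubring := by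
  apply le_antisymm
  · rintro z ⟨a, ha, b, hb, hb0, hbW, rfl⟩
    exact (LocalSubring.ofPrime A P).toSubring.mul_mem (LocalSubring.le_ofPrime A P ha)
      (inv_mem_ofPrime (a := ⟨b, hb⟩) ((hP ⟨b, hb⟩).2 ⟨hb0, hbW⟩))
  · intro y hy
    obtain ⟨⟨a, b⟩, hab⟩ := IsLocalization.surj P.primeCompl
      (⟨y, hy⟩ : (LocalSubring.ofPrime A P).toSubring)
    have hab' : y * (b : A) = a := congrArg Subtype.val hab
    obtain ⟨hb0, hbW⟩ := (hP b).1 b.2
    refine ⟨a, a.2, (b : A), (b : A).2, hb0, hbW, ?_⟩
    rw [← hab', mul_assoc, mul_inv_cancel₀ hb0, mul_one]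

lemma loc_val (V : ValuationSubring F) : Loc V.toSubring := by
  intro a ha
  by_cases h : a ≠ 0 ∧ a⁻¹ ∈ V
  · exact Or.inl h
  · right
    have h1 : (1 : F) - a ≠ 0 := by
      intro h0
      have : a = 1 := (sub_eq_zero.1 h0).symm
      apply h
      rw [this, inv_one]
      exact ⟨one_ne_zero, V.one_mem⟩
    refine ⟨h1, ?_⟩
    have hV : V.valuation a < 1 := by
      refine lt_of_le_of_ne ((V.valuation_le_one_iff a).2 ha) ?_
      intro h2
      apply h
      have ha0 : a ≠ 0 := by
        rintro rfl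
        rw [map_zero] at h2
        exact zero_ne_one h2
      refine ⟨ha0, ?_⟩
      rw [← V.valuation_le_one_iff, map_inv₀, h2, inv_one]
    have h2 : V.valuation (1 - a) = 1 := Valuation.map_one_sub_of_lt _ hV
    change (1 - a)⁻¹ ∈ V
    rw [← V.valuation_le_one_iff, map_inv₀, h2, inv_one]

lemma val_lt_iff {V : ValuationSubring F} {a : F} (ha : a ∈ V) :
    V.valuation a < 1 ↔ ¬ (a ≠ 0 ∧ a⁻¹ ∈ V) := by
  constructor
  · rintro h ⟨h0, h1⟩
    rw [← V.valuation_le_one_iff, map_inv₀] at h1
    have h2 : V.valuation a ≠ 0 := (Valuation.ne_zero_iff _).2 h0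
    have h3 := mul_le_mul' h.le h1
    rw [mul_inv_cancel₀ h2, one_mul] at h3
    exact absurd (inv_le_one_iff₀.1 h1) (by
      rintro (h4 | h4)
      · exact h2 (le_antisymm h4 zero_le)
      · exact absurd h (not_lt.2 h4))
  · intro h
    refine lt_of_le_of_ne ((V.valuation_le_one_iff a).2 ha) ?_
    intro h2
    apply h
    have ha0 : a ≠ 0 := by
      rintro rfl
      rw [map_zero] at h2
      exact zero_ne_one h2
    refine ⟨ha0, ?_⟩
    rw [← V.valuation_le_one_iff, map_inv₀, h2, inv_one]

end prime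

section model

variable {k K : Type u} [CommRing k] [IsNoetherianRing k] [Field K] [Algebra k K]
  {𝒱 : Set (ValuationSubring K)} {T I : Type}

/-- A chart at the centre of a valuation. -/
theorem lu_of_model [Finite T] [Fintype I] (M : LM 𝒱 (⊥ : Subalgebra k K) ⊤ T I) (hFr : Frc M)
    {V : ValuationSubring K} (hV : V ∈ 𝒱) {J : Type} [Finite J] (S : J → K)
    (hSV : ∀ j, S j ∈ V) (hB : ∀ j, IsBr M (S j)) :
    ∃ B : Subalgebra k K, Algebra.FiniteType k B ∧ (∀ b ∈ B, b ∈ V) ∧
      IsRegularLocalRing (lo V.toSubring B.toSubring) ∧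
      (∀ y : K, IsIntegral (lo V.toSubring B.toSubring) y → y ∈ lo V.toSubring B.toSubring) ∧
      ∀ j, S j ∈ lo V.toSubring B.toSubring := by
  classical
  choose N hN hNB using hB
  let g : Option J → K := fun o => o.elim 1 fun j => S j ^ N j
  obtain ⟨T', I', hT', hI', M', π, hO, hC⟩ := exists_princ M g (by
    rintro (_ | j)
    · exact IsB.one
    · exact hNB j)
  obtain ⟨t, ht⟩ := M'.cv V hV
  set B := M'.A t with hBdef
  have hBV : B.toSubring ≤ V.toSubring := fun b hb => ht b hb
  have hWl := loc_val V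
  have hreg : IsRegularLocalRing (lo V.toSubring B.toSubring) :=
    ((M'.rg t).reg V.toSubring hWl hBV Empty (fun e => e.elim) (fun e => e.elim)).reg
  obtain ⟨P, hP, hPW, -⟩ := exists_center hWl hBV
  have hlo := lo_eq_ofPrime hBV P hPW
  have hic : IsIntegrallyClosedIn (lo V.toSubring B.toSubring) K := by
    rw [hlo]
    refine isIntegrallyClosedIn_ofPrime (M'.ft t) (M'.rg t) ?_ P
    intro y
    obtain ⟨a, ha, b, hb, hb0, hy⟩ := hFr (π t) y
    exact ⟨a, hO.le t ha, b, hO.le t hb, hb0, hy⟩
  have hic' : ∀ y : K, IsIntegral (lo V.toSubring B.toSubring) y →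
      y ∈ lo V.toSubring B.toSubring := by
    intro y hy
    obtain ⟨z, hz⟩ := hic.isIntegral_iff.1 hy
    rw [← hz]
    exact z.2
  refine ⟨B, M'.ft t, ht, hreg, hic', fun j => ?_⟩
  have hN0 : N j ≠ 0 := ne_zero_of_isUnit (K := K) (hN j)
  have hpow : S j ^ N j ∈ lo V.toSubring B.toSubring := by
    rcases hC t none (some j) with h | h
    · have e : g (some j) / g none = S j ^ N j := by
        change S j ^ N j / 1 = _
        rw [div_one]
      rw [e] at h
      exact le_lo _ _ h
    · have e : g none / g (some j) = (S j ^ N j)⁻¹ := by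
        change 1 / S j ^ N j = _
        rw [one_div]
      rw [e] at h
      by_cases h0 : (S j ^ N j)⁻¹ = 0
      · rw [inv_eq_zero] at h0
        rw [h0]
        exact Subring.zero_mem _
      · have h1 := inv_mem_lo hBV (le_lo _ _ h) h0 (by
          rw [inv_inv]
          exact V.toSubring.pow_mem (hSV j) _)
        rwa [inv_inv] at h1
  apply hic'
  refine IsIntegral.of_pow (Nat.pos_of_ne_zero hN0) ?_
  exact isIntegral_algebraMap (R := lo V.toSubring B.toSubring) (A := K) (x := ⟨_, hpow⟩)

/-- Local uniformization of a local ring. -/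
theorem lu_of_chart {B : Subalgebra k K} (hft : Algebra.FiniteType k B)
    {V : ValuationSubring K} (hBV : ∀ b ∈ B, b ∈ V)
    (hreg : IsRegularLocalRing (lo V.toSubring B.toSubring))
    {R : Type u} [CommRing R] [Algebra R K]
    (hR : ∀ r : R, algebraMap R K r ∈ lo V.toSubring B.toSubring)
    (hkR : ∀ c : k, ∃ r : R, algebraMap R K r = algebraMap k K c) :
    ∃ D : Subalgebra R K, D.FG ∧ (∀ b : D, (b : K) ∈ V) ∧
      ∃ P : Ideal D, ∃ (_ : P.IsPrime),
        (∀ b : D, b ∈ P ↔ V.valuation (b : K) < 1) ∧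
        IsRegularLocalRing (Localization.AtPrime P) := by
  classical
  have hBV' : B.toSubring ≤ V.toSubring := fun b hb => hBV b hb
  obtain ⟨G, hG⟩ := (Subalgebra.fg_iff_finiteType _).2 hft
  let D : Subalgebra R K := Algebra.adjoin R (G : Set K)
  have hGB : ∀ g ∈ G, g ∈ B := by
    intro g hg
    rw [← hG]
    exact Algebra.subset_adjoin hg
  have hBD : B.toSubring ≤ D.toSubring := by
    intro b hb
    have hb' : b ∈ Algebra.adjoin k (G : Set K) := by rw [hG]; exact hb
    clear hb
    induction hb' using Algebra.adjoin_induction with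
    | mem a ha => exact Algebra.subset_adjoin ha
    | algebraMap r =>
      obtain ⟨s, hs⟩ := hkR r
      rw [← hs]
      exact D.algebraMap_mem s
    | add x y _ _ hx hy => exact D.toSubring.add_mem hx hy
    | mul x y _ _ hx hy => exact D.toSubring.mul_mem hx hy
  have hDlo : D.toSubring ≤ lo V.toSubring B.toSubring := by
    intro d hd
    have hd' : d ∈ Algebra.adjoin R (G : Set K) := hd
    clear hd
    induction hd' using Algebra.adjoin_induction with
    | mem a ha => exact le_lo _ _ (hGB a ha)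
    | algebraMap r => exact hR r
    | add x y _ _ hx hy => exact Subring.add_mem _ hx hy
    | mul x y _ _ hx hy => exact Subring.mul_mem _ hx hy
  have hDV : D.toSubring ≤ V.toSubring := hDlo.trans (lo_le hBV')
  have hlo : lo V.toSubring D.toSubring = lo V.toSubring B.toSubring :=
    lo_eq_of hBV' hBD hDlo
  obtain ⟨P, hP, hPW, e, -⟩ := exists_center (loc_val V) hDV
  rw [← hlo] at hreg
  refine ⟨D, ⟨G, rfl⟩, fun b => hDV b.2, P, hP, ?_, ?_⟩
  · intro b
    rw [val_lt_iff (hDV b.2)]
    have h1 := hPW b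
    constructor
    · intro h2 h3
      exact (h1.2 h3) h2
    · intro h2
      by_contra h3
      exact h2 (h1.1 h3)
  · have h1 : IsRegularLocalRing (Localization.AtPrime P) := IsRegularLocalRing.of_ringEquiv e.symm
    exact h1

end model

end Pool.Agent.N98.RV
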