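import Pool.Agent.N98.RV.FamLow

/-!
Local uniformization in bounded degree, over a base ring which depends on the family.
-/

set_option autoImplicit false
set_option linter.unusedVariables false
set_option linter.unusedSectionVars false

universe u

namespace Pool.Agent.N98.RV

open IsLocalRing Pool.Agent.W418.LU2 Polynomial Pool.Agent.N98

section chart

variable {k E K : Type u} [CommRing k] [Field E] [Field K] [Algebra k E] [Algebra k K]
  [Algebra E K] [IsScalarTower k E K]

/-- Local uniformization of a local ring. -/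
theorem lu_of_chartF {k' : Subring E} {B : Subalgebra k' K} (hft : Algebra.FiniteType k' B)
    {V : ValuationSubring K} (hBV : ∀ b ∈ B, b ∈ V)
    (hreg : IsRegularLocalRing (lo V.toSubring B.toSubring))
    {R : Type u} [CommRing R] [Algebra R K]
    (hR : ∀ r : R, algebraMap R K r ∈ lo V.toSubring B.toSubring)
    (hkR : ∀ c : k, ∃ r : R, algebraMap R K r = algebraMap k K c)
    (G' : Finset E) (hG' : ∀ g ∈ G', g ∈ k')
    (hk' : k' ≤ lo (V.comap (algebraMap E K)).toSubring
      (Subring.closure (((algebraMap k E).range : Set E) ∪ G'))) :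
    ∃ D : Subalgebra R K, D.FG ∧ (∀ b : D, (b : K) ∈ V) ∧
      ∃ P : Ideal D, ∃ (_ : P.IsPrime),
        (∀ b : D, b ∈ P ↔ V.valuation (b : K) < 1) ∧
        IsRegularLocalRing (Localization.AtPrime P) := by
  classical
  have hBV' : B.toSubring ≤ V.toSubring := fun b hb => hBV b hb
  obtain ⟨G, hG⟩ := (Subalgebra.fg_iff_finiteType _).2 hft
  let D : Subalgebra R K := Algebra.adjoin R ((G : Set K) ∪ G'.image (algebraMap E K) : Set K)
  have hGB : ∀ g ∈ G, g ∈ B := by
    intro g hg
    rw [← hG]
    exact Algebra.subset_adjoin hg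
  have hG'B : ∀ g ∈ G', algebraMap E K g ∈ B := by
    intro g hg
    exact B.algebraMap_mem (⟨g, hG' g hg⟩ : k')
  have hDlo : D.toSubring ≤ lo V.toSubring B.toSubring := by
    intro d hd
    have hd' : d ∈ Algebra.adjoin R ((G : Set K) ∪ G'.image (algebraMap E K) : Set K) := hd
    clear hd
    induction hd' using Algebra.adjoin_induction with
    | mem a ha =>
      rcases ha with ha | ha
      · exact le_lo _ _ (hGB a ha)
      · obtain ⟨g, hg, rfl⟩ := Finset.mem_image.1 (Finset.mem_coe.1 ha)
        exact le_lo _ _ (hG'B g hg)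
    | algebraMap r => exact hR r
    | add x y _ _ hx hy => exact Subring.add_mem _ hx hy
    | mul x y _ _ hx hy => exact Subring.mul_mem _ hx hy
  have hDV : D.toSubring ≤ V.toSubring := hDlo.trans (lo_le hBV')
  have hcl : ∀ e ∈ Subring.closure (((algebraMap k E).range : Set E) ∪ G'),
      algebraMap E K e ∈ D := by
    intro e he
    have h1 : Subring.closure (((algebraMap k E).range : Set E) ∪ G') ≤
        D.toSubring.comap (algebraMap E K) := by
      rw [Subring.closure_le]
      rintro a (ha | ha)
      · obtain ⟨c, rfl⟩ := ha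
        obtain ⟨r, hr⟩ := hkR c
        change algebraMap E K (algebraMap k E c) ∈ D
        rw [← IsScalarTower.algebraMap_apply, ← hr]
        exact D.algebraMap_mem r
      · change algebraMap E K a ∈ D
        exact Algebra.subset_adjoin (Or.inr (Finset.mem_coe.2 (Finset.mem_image_of_mem _ ha)))
    exact h1 he
  have hBD : B.toSubring ≤ lo V.toSubring D.toSubring := by
    intro b hb
    have hb' : b ∈ Algebra.adjoin k' (G : Set K) := by rw [hG]; exact hb
    clear hb
    induction hb' using Algebra.adjoin_induction with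
    | mem a ha => exact le_lo _ _ (Algebra.subset_adjoin (Or.inl ha))
    | algebraMap r =>
      obtain ⟨a, ha, d, hd, hd0, hdV, e⟩ := hk' r.2
      have e1 : algebraMap k' K r = algebraMap E K a * (algebraMap E K d)⁻¹ := by
        change algebraMap E K r = _
        rw [e, map_mul, map_inv₀]
      rw [e1]
      refine ⟨_, hcl a ha, _, hcl d hd, (_root_.map_ne_zero _).2 hd0, ?_, rfl⟩
      rw [← map_inv₀]
      exact hdV
    | add x y _ _ hx hy => exact Subring.add_mem _ hx hy
    | mul x y _ _ hx hy => exact Subring.mul_mem _ hx hy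
  have hlo : lo V.toSubring D.toSubring = lo V.toSubring B.toSubring := by
    apply le_antisymm
    · exact (lo_mono hDlo).trans (lo_lo hBV').le
    · exact (lo_mono hBD).trans (lo_lo hDV).le
  obtain ⟨P, hP, hPW, e, -⟩ := exists_center (loc_val V) hDV
  rw [← hlo] at hreg
  refine ⟨D, ⟨G ∪ G'.image (algebraMap E K), by rw [Finset.coe_union]⟩, fun b => hDV b.2, P, hP,
    ?_, ?_⟩
  · intro b
    rw [val_lt_iff (hDV b.2)]
    have h1 := hPW b
    constructor
    · intro h2 h3
      exact (h1.2 h3) h2
    · intro h2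
      by_contra h3
      exact h2 (h1.1 h3)
  · have h1 : IsRegularLocalRing (Localization.AtPrime P) := IsRegularLocalRing.of_ringEquiv e.symm
    exact h1

end chart

section main

variable {k E K : Type u} [CommRing k] [IsNoetherianRing k] [Field E] [Infinite E] [Field K]
  [Algebra k E] [Algebra k K] [Algebra E K] [IsScalarTower k E K]

/-- **Local uniformization** over the base, in bounded degree. -/
theorem lu_mainF {N r δ : ℕ} (x : Fin N → K)
    (htop : IntermediateField.adjoin E (Set.range x) = ⊤) (htr : Algebra.trdeg E K = r) (C0 : ℕ)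
    (hδ : ∀ t : ℕ, r.factorial * Module.finrank E (img E x t) ≤ δ * (t + C0) ^ r)
    (hp : ∀ p : ℕ, p.Prime → p ≤ δ ^ 2 ^ r → IsUnit (p : k))
    {A : Type u} [CommRing A] [IsDomain A] [Algebra k A] [Algebra A K]
    [IsScalarTower k A K] [IsFractionRing A K] {m : ℕ} (s : Fin m → A)
    (q' : Fin m → ℕ) (a : ∀ j, Fin (q' j) → E) (b : ∀ j, Fin (q' j) → Fin N → E)
    (e : ∀ j, Fin (q' j) → ℤ)
    (hs : ∀ j, algebraMap A K (s j) =
      ∏ i, (algebraMap E K (a j i) + ∑ l, algebraMap E K (b j i l) * x l) ^ e j i)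
    (hA : ∀ z : A, IsIntegral (Algebra.adjoin k (Set.range s)) z)
    (q : Ideal A) [q.IsPrime] {R : Type u} [CommRing R] [Algebra A R]
    [IsLocalization.AtPrime R q] [Algebra R K] [IsScalarTower A R K]
    {V : ValuationSubring K} (hRV : ∀ z : R, algebraMap R K z ∈ V)
    (hRV' : ∀ z : R, z ∈ nonunits R ↔ V.valuation (algebraMap R K z) < 1)
    (hV : HasF (Adm k (V.comap (algebraMap E K)))
      ({V.comap (algebraMap E K)} : Set (ValuationSubring E))) :
    ∃ D : Subalgebra R K, D.FG ∧ (∀ b : D, (b : K) ∈ V) ∧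
      ∃ P : Ideal D, ∃ (_ : P.IsPrime),
        (∀ b : D, b ∈ P ↔ V.valuation (b : K) < 1) ∧
        IsRegularLocalRing (Localization.AtPrime P) := by
  classical
  have hinj : Function.Injective (algebraMap A K) := IsFractionRing.injective A K
  let F : (Σ j, Fin (q' j)) → K := fun i =>
    algebraMap E K (a i.1 i.2) + ∑ j, algebraMap E K (b i.1 i.2 j) * x j
  obtain ⟨k', ⟨hkn, hkk, hkV, G, hGk, hkG⟩, T, I, hT, hI, M, hFr, hM⟩ :=
    rel_modelsF (E := E) x (fun k hk => hk.1) hV ⟨V, rfl⟩
    htop r htr δ C0 hδ (fun k' hk' => by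
      refine isUnit_factorial_of_primes _ fun p hpp hpB => ?_
      have h1 := (hp p hpp hpB).map (((algebraMap k E).codRestrict k' hk'.2.1))
      rwa [map_natCast] at h1) {i : Σ j, Fin (q' j) // F i ≠ 0}
    (fun i => a i.1.1 i.1.2) (fun i => b i.1.1 i.1.2) (fun i => i.2)
  have hsB : ∀ j, s j ≠ 0 → IsBr M (algebraMap A K (s j)) := by
    intro j hj
    have hne : algebraMap A K (s j) ≠ 0 := fun h0 => hj (hinj (h0.trans (map_zero _).symm))
    rw [hs j] at hne ⊢
    rw [Finset.prod_ne_zero_iff] at hne
    refine IsBr.prod _ _ fun i _ => ?_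
    by_cases h0 : F ⟨j, i⟩ = 0
    · have h1 : e j i = 0 := by
        by_contra h2
        apply hne i (Finset.mem_univ i)
        change F ⟨j, i⟩ ^ e j i = 0
        rw [h0, zero_zpow _ h2]
      rw [h1, zpow_zero]
      exact IsB.one.br
    · exact (hM ⟨⟨j, i⟩, h0⟩).zpow _
  have hAV : ∀ z : A, algebraMap A K z ∈ V := fun z => by
    rw [IsScalarTower.algebraMap_apply A R K]
    exact hRV _
  obtain ⟨B, h1, h2, h3, h4, h5⟩ := lu_of_model M hFr (V := V) rfl
    (J := {j : Fin m // s j ≠ 0}) (fun j => algebraMap A K (s j.1)) (fun j => hAV _)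
    (fun j => hsB j.1 j.2)
  have hBV : B.toSubring ≤ V.toSubring := fun b hb => h2 b hb
  set L := lo V.toSubring B.toSubring with hL
  have hsL : ∀ j, algebraMap A K (s j) ∈ L := by
    intro j
    by_cases hj : s j = 0
    · rw [hj, map_zero]
      exact L.zero_mem
    · exact h5 ⟨j, hj⟩
  have hadL : ∀ z ∈ Algebra.adjoin k (Set.range s), algebraMap A K z ∈ L := by
    intro z hz
    induction hz using Algebra.adjoin_induction with
    | mem z hz =>
      obtain ⟨j, rfl⟩ := hz
      exact hsL j
    | algebraMap c =>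
      rw [← IsScalarTower.algebraMap_apply, IsScalarTower.algebraMap_apply k E K]
      exact le_lo _ _ (B.algebraMap_mem (⟨_, hkk c⟩ : k'))
    | add x y _ _ hx hy => rw [map_add]; exact L.add_mem hx hy
    | mul x y _ _ hx hy => rw [map_mul]; exact L.mul_mem hx hy
  have hAL : ∀ z : A, algebraMap A K z ∈ L := by
    intro z
    apply h4
    obtain ⟨P, hP, hP0⟩ := hA z
    let φ : Algebra.adjoin k (Set.range s) →+* L :=
      ((algebraMap A K).comp (Algebra.adjoin k (Set.range s)).val.toRingHom).codRestrict L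
        fun y => hadL y y.2
    refine ⟨P.map φ, hP.map φ, ?_⟩
    rw [eval₂_map]
    have e1 : (algebraMap L K).comp φ = (algebraMap A K).comp
        (algebraMap (Algebra.adjoin k (Set.range s)) A) := rfl
    rw [e1, ← hom_eval₂, hP0, map_zero]
  have hlocR : IsLocalRing R := IsLocalization.AtPrime.isLocalRing R q
  have hRL : ∀ z : R, algebraMap R K z ∈ L := by
    intro z
    obtain ⟨⟨u, v⟩, huv⟩ := IsLocalization.surj q.primeCompl z
    have hv1 : IsUnit (algebraMap A R v) := IsLocalization.map_units R v
    have hv0 : algebraMap A K v ≠ 0 := by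
      rw [IsScalarTower.algebraMap_apply A R K]
      exact (hv1.map (algebraMap R K)).ne_zero
    have hvV : (algebraMap A K v)⁻¹ ∈ V := by
      obtain ⟨w, hw⟩ := hv1.exists_right_inv
      have h6 : algebraMap A K v * algebraMap R K w = 1 := by
        rw [IsScalarTower.algebraMap_apply A R K, ← map_mul, hw, map_one]
      rw [← eq_inv_of_mul_eq_one_right h6]
      exact hRV w
    have h6 := congrArg (algebraMap R K) huv
    rw [map_mul, ← IsScalarTower.algebraMap_apply A R K, ← IsScalarTower.algebraMap_apply A R K]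
      at h6
    have h7 : algebraMap R K z = algebraMap A K u * (algebraMap A K v)⁻¹ := by
      rw [← h6, mul_assoc, mul_inv_cancel₀ hv0, mul_one]
    rw [h7]
    exact L.mul_mem (hAL u) (inv_mem_lo hBV (hAL v) hv0 hvV)
  exact lu_of_chartF h1 h2 h3 hRL (fun c => ⟨algebraMap A R (algebraMap k A c), by
    rw [← IsScalarTower.algebraMap_apply A R K, ← IsScalarTower.algebraMap_apply k A K]⟩) G hGk
    hkG

end main

end Pool.Agent.N98.RV
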