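import Pool.Agent.N98.RV.Tor
import Pool.Agent.W498.Tor.Tor

/-!
Polynomials over a base: the product with the projective line.
-/

set_option autoImplicit false
set_option linter.unusedVariables false
set_option linter.unusedSimpArgs false
set_option linter.unusedSectionVars false

universe u

open Polynomial Pool.Agent.W558

namespace Pool.Agent.N98.RV

section der

variable {L K : Type u} [Field L] [Field K] [Algebra L K]

/-- The derivation `∂ / ∂ z`. -/
lemma exists_ddz {z : K} (hz : Transcendental L z)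
    (htop : IntermediateField.adjoin L {z} = ⊤) : ∃ D : Derivation L K K, D z = 1 := by
  let _ : Algebra L[X] K := (aeval z).toAlgebra
  have : IsScalarTower L L[X] K := IsScalarTower.of_algebraMap_eq fun r => by
    change algebraMap L K r = aeval z (algebraMap L L[X] r)
    rw [AlgHom.commutes]
  have hinj : Function.Injective (algebraMap L[X] K) := transcendental_iff_injective.1 hz
  have : FaithfulSMul L[X] K := (faithfulSMul_iff_algebraMap_injective _ _).2 hinj
  have : IsFractionRing L[X] K := by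
    refine IsFractionRing.of_field _ K fun x => ?_
    have hx : x ∈ IntermediateField.adjoin L {z} := by rw [htop]; trivial
    obtain ⟨r, s, h⟩ := (IntermediateField.mem_adjoin_simple_iff L x).1 hx
    exact ⟨r, s, h⟩
  obtain ⟨D, hD⟩ := exists_der_frac (K := K) (Polynomial.derivative' : Derivation L L[X] L[X])
  refine ⟨D, ?_⟩
  have h1 := hD X
  have h2 : algebraMap L[X] K X = z := aeval_X z
  have h3 : (Polynomial.derivative' : Derivation L L[X] L[X]) X = 1 := by
    change derivative X = 1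
    exact derivative_X
  rw [h2, h3, map_one] at h1
  exact h1

end der

section frc

variable {k L K : Type u} [CommRing k] [Field L] [Field K] [Algebra k L] [Algebra k K] [Algebra L K]
  [IsScalarTower k L K] {𝒱 : Set (ValuationSubring K)} {𝒲 : Set (ValuationSubring L)}

lemma frac_iff (A : Subalgebra k K) : (∀ x : K, ∃ a ∈ A, ∃ b ∈ A, b ≠ 0 ∧ x = a * b⁻¹) ↔
    Subfield.closure (A : Set K) = ⊤ := by
  constructor
  · intro h
    rw [eq_top_iff]
    intro x _
    obtain ⟨a, ha, b, hb, -, rfl⟩ := h x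
    exact mul_mem (Subfield.subset_closure ha) (inv_mem (Subfield.subset_closure hb))
  · intro h x
    have hx : x ∈ Subfield.closure (A : Set K) := by rw [h]; trivial
    rw [Subfield.mem_closure_iff] at hx
    obtain ⟨r, hr, s, hs, rfl⟩ := hx
    have e : Subring.closure (A : Set K) = A.toSubring := Subring.closure_eq A.toSubring
    rw [e] at hr hs
    by_cases h0 : s = 0
    · refine ⟨0, A.zero_mem, 1, A.one_mem, one_ne_zero, ?_⟩
      rw [h0, div_zero, zero_mul]
    · exact ⟨r, hr, s, hs, h0, div_eq_mul_inv _ _⟩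

lemma frc_adj {A : Subalgebra k L} (hA : ∀ x : L, ∃ a ∈ A, ∃ b ∈ A, b ≠ 0 ∧ x = a * b⁻¹)
    {z : K} (htop : IntermediateField.adjoin L {z} = ⊤) (b : Bool) :
    ∀ x : K, ∃ a ∈ adj (A.map (em k L K)) (zz z b), ∃ c ∈ adj (A.map (em k L K)) (zz z b),
      c ≠ 0 ∧ x = a * c⁻¹ := by
  rw [frac_iff]
  rw [eq_top_iff]
  intro x _
  set F := Subfield.closure ((adj (A.map (em k L K)) (zz z b) : Subalgebra k K) : Set K)
  have h1 : ∀ l : L, algebraMap L K l ∈ F := by
    intro l
    obtain ⟨a, ha, c, hc, -, rfl⟩ := hA l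
    rw [map_mul, map_inv₀]
    exact mul_mem (Subfield.subset_closure (le_adj _ _ ⟨a, ha, rfl⟩))
      (inv_mem (Subfield.subset_closure (le_adj _ _ ⟨c, hc, rfl⟩)))
  have h2 : z ∈ F := by
    have h3 : zz z b ∈ F := Subfield.subset_closure (self_mem_adj _ _)
    cases b
    · have h4 := inv_mem h3
      have h5 : (zz z false)⁻¹ = z := by
        change (z⁻¹)⁻¹ = z
        rw [inv_inv]
      rwa [h5] at h4
    · exact h3
  have h3 : ∀ P : L[X], aeval z P ∈ F := by
    intro P
    rw [aeval_eq_sum_range]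
    refine sum_mem fun i _ => ?_
    rw [Algebra.smul_def]
    exact mul_mem (h1 _) (pow_mem h2 _)
  have hx : x ∈ IntermediateField.adjoin L {z} := by rw [htop]; trivial
  obtain ⟨r, s, rfl⟩ := (IntermediateField.mem_adjoin_simple_iff L x).1 hx
  exact _root_.div_mem (h3 r) (h3 s)

lemma rg_map {T I : Type} (h𝒱 : 𝒱.Nonempty)
    (h𝒲 : ∀ V ∈ 𝒱, V.comap (algebraMap L K) ∈ 𝒲) (M : LM 𝒲 (⊥ : Subalgebra k L) ⊤ T I) {z : K} (hz : Transcendental L z)
    (t : T) (b : Bool) : RegC (adj ((mapLM h𝒱 h𝒲 M).A t) (zz z b)).toSubring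
      (xx ((mapLM h𝒱 h𝒲 M).x t) z b) :=
  rg_xx ((mapLM h𝒱 h𝒲 M).rg t) (by
    rintro _ ⟨l, -, rfl⟩
    exact ⟨l, rfl⟩) hz b

end frc

section main

variable {k L K : Type u} [CommRing k] [Field L] [Field K] [Algebra k L] [Algebra k K] [Algebra L K]
  [IsScalarTower k L K] {𝒱 : Set (ValuationSubring K)} {𝒲 : Set (ValuationSubring L)}

lemma isBr_map {T I : Type} [Fintype I] (h𝒱 : 𝒱.Nonempty)
    (h𝒲 : ∀ V ∈ 𝒱, V.comap (algebraMap L K) ∈ 𝒲) {M : LM 𝒲 (⊥ : Subalgebra k L) ⊤ T I} {g : L}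
    (h : IsBr M g) : IsBr (mapLM h𝒱 h𝒲 M) (algebraMap L K g) := by
  obtain ⟨N, hN, γ, h⟩ := h
  refine ⟨N, hN, γ, ?_⟩
  rw [← map_pow]
  exact f1_map h h𝒱 h𝒲

lemma isBr_prod {T I : Type} [Fintype I] {M : LM 𝒱 (⊥ : Subalgebra k K) ⊤ T I} {z : K}
    (hz : z ≠ 0) (h : ∀ t b, RegC (adj (M.A t) (zz z b)).toSubring (xx (M.x t) z b)) {g : K} (hg : IsBr M g) : IsBr (prodLM M hz h) g := by
  obtain ⟨N, hN, γ, hg⟩ := hg
  exact ⟨N, hN, _, f1_prod M hz h hg⟩

lemma isB_self {T I : Type} [Fintype I] {M : LM 𝒱 (⊥ : Subalgebra k K) ⊤ T I} {z : K}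
    (hz : z ≠ 0) (h : ∀ t b, RegC (adj (M.A t) (zz z b)).toSubring (xx (M.x t) z b)) : IsB (prodLM M hz h) z :=
  ⟨_, f1_self M hz h⟩

/-- The derivation `z ∂` is logarithmic on the product. -/
lemma ldt_prod {T I : Type} [Fintype I] (h𝒱 : 𝒱.Nonempty)
    (h𝒲 : ∀ V ∈ 𝒱, V.comap (algebraMap L K) ∈ 𝒲) (M : LM 𝒲 (⊥ : Subalgebra k L) ⊤ T I) {z : K}
    (hz : z ≠ 0) (h : ∀ t b, RegC (adj ((mapLM h𝒱 h𝒲 M).A t) (zz z b)).toSubring
      (xx ((mapLM h𝒱 h𝒲 M).x t) z b)) {D : Derivation L K K} (hD : D z = 1)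
    (p : T × Bool) : LDt (prodLM (mapLM h𝒱 h𝒲 M) hz h) p (th k D z) := by
  have hL : ∀ l : L, th k D z (algebraMap L K l) = 0 := by
    intro l
    rw [th_apply, Derivation.map_algebraMap, mul_zero]
  have hzz : th k D z (zz z p.2) / zz z p.2 ∈ (prodLM (mapLM h𝒱 h𝒲 M) hz h).A p := by
    rcases p with ⟨t, b⟩
    cases b
    · have e : th k D z (zz z false) / zz z false = -1 := by
        change th k D z z⁻¹ / z⁻¹ = -1
        rw [Derivation.leibniz_inv, th_apply, hD, smul_eq_mul]
        field_simp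
      rw [e]
      exact Subalgebra.neg_mem _ (Subalgebra.one_mem _)
    · have e : th k D z (zz z true) / zz z true = 1 := by
        change th k D z z / z = 1
        rw [th_apply, hD, mul_one, div_self hz]
      rw [e]
      exact Subalgebra.one_mem _
  constructor
  · intro f hf
    refine (adj_induction ((mapLM h𝒱 h𝒲 M).A p.1) (zz z p.2)
      (p := fun f => f ∈ (prodLM (mapLM h𝒱 h𝒲 M) hz h).A p ∧
        th k D z f ∈ (prodLM (mapLM h𝒱 h𝒲 M) hz h).A p) ?_ ?_ ?_ f hf).2
    · intro a ha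
      refine ⟨le_adj _ _ ha, ?_⟩
      obtain ⟨l, hl, rfl⟩ := ha
      have e : th k D z ((em k L K : L →ₐ[k] K) l) = 0 := hL l
      change th k D z (em k L K l) ∈ _
      rw [e]
      exact Subalgebra.zero_mem _
    · rintro a b ⟨ha, ha'⟩ ⟨hb, hb'⟩
      exact ⟨Subalgebra.add_mem _ ha hb, by rw [map_add]; exact Subalgebra.add_mem _ ha' hb'⟩
    · rintro a ⟨ha, ha'⟩
      have h1 : zz z p.2 ∈ (prodLM (mapLM h𝒱 h𝒲 M) hz h).A p := self_mem_adj _ _
      refine ⟨Subalgebra.mul_mem _ ha h1, ?_⟩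
      rw [Derivation.leibniz, smul_eq_mul, smul_eq_mul]
      refine Subalgebra.add_mem _ (Subalgebra.mul_mem _ ha ?_) (Subalgebra.mul_mem _ h1 ha')
      have e : th k D z (zz z p.2) = th k D z (zz z p.2) / zz z p.2 * zz z p.2 := by
        rw [div_mul_cancel₀ _ (zz_ne hz _)]
      rw [e]
      exact Subalgebra.mul_mem _ hzz h1
  · rintro (i | c)
    · change th k D z (algebraMap L K (M.x p.1 i)) / algebraMap L K (M.x p.1 i) ∈ _
      rw [hL, zero_div]
      exact Subalgebra.zero_mem _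
    · change th k D z (if p.2 = c then zz z p.2 else 1) / (if p.2 = c then zz z p.2 else 1) ∈ _
      split_ifs
      · exact hzz
      · rw [Derivation.map_one_eq_zero, zero_div]
        exact Subalgebra.zero_mem _

/-- **Polynomials over a base.** If the constants and the coefficients of the characteristic
polynomials of the members of a family of polynomials, closed under derivatives, are boundary
functions of a model of the base, then the members of the family are boundary functions of a model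
of the product with the projective line. -/
theorem p1 [IsNoetherianRing k] (h𝒱 : 𝒱.Nonempty)
    (h𝒲 : ∀ V ∈ 𝒱, V.comap (algebraMap L K) ∈ 𝒲) {T I : Type} [Finite T] [Fintype I] (M : LM 𝒲 (⊥ : Subalgebra k L) ⊤ T I)
    (hFr : Frc M) (z : K) (hz : Transcendental L z)
    (htop : IntermediateField.adjoin L {z} = ⊤) (Δ : ℕ)
    (hΔ : IsUnit ((Nat.factorial Δ : ℕ) : k)) (P : Set L) (hP : ∀ g ∈ P, IsBr M g)
    {B : Type} [Finite B] (F : B → L[X]) (hF0 : ∀ b, F b ≠ 0)
    (hdeg : ∀ b, (F b).natDegree ≤ Δ)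
    (hder : ∀ b, 1 ≤ (F b).natDegree → ∃ b', F b' = derivative (F b))
    (hX : ∃ b, F b = X) (hconst : ∀ b, (F b).natDegree = 0 → (F b).coeff 0 ∈ P)
    (hQ : ∀ c b, 1 ≤ (F c).natDegree → ∃ Q : L[X], Q ≠ 0 ∧ Q.natDegree ≤ Δ ∧
      F c ∣ Q.comp (F b) ∧ ∀ n, Q.coeff n ≠ 0 → Q.coeff n ∈ P) :
    ∃ (T' I' : Type) (_ : Finite T') (_ : Fintype I') (M' : LM 𝒱 (⊥ : Subalgebra k K) ⊤ T' I'),
      Frc M' ∧ (∀ b, IsBr M' (aeval z (F b))) ∧ (∀ g ∈ P, IsBr M' (algebraMap L K g)) ∧
      ∀ t', (z ∈ M'.A t' ∨ z⁻¹ ∈ M'.A t') ∧ ∃ t, (M.A t).map (em k L K) ≤ M'.A t' := by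
  classical
  have hz0 : z ≠ 0 := by
    rintro rfl
    exact hz isAlgebraic_zero
  obtain ⟨D, hD⟩ := exists_ddz hz htop
  have hTr : ∀ t b, RegC (adj ((mapLM h𝒱 h𝒲 M).A t) (zz z b)).toSubring
      (xx ((mapLM h𝒱 h𝒲 M).x t) z b) := fun t b => rg_map h𝒱 h𝒲 M hz t b
  set M0 := prodLM (mapLM h𝒱 h𝒲 M) hz0 hTr with hM0
  have hF0' : Frc M0 := by
    rintro ⟨t, b⟩
    exact frc_adj (hFr t) htop b
  have hev0 : ∀ Q : L[X], Q ≠ 0 → aeval z Q ≠ 0 := fun Q hQ h =>
    hQ (transcendental_iff.1 hz Q h)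
  let P' : Set K := algebraMap L K '' P
  have hP' : ∀ g ∈ P', IsBr M0 g := by
    rintro _ ⟨g, hg, rfl⟩
    exact isBr_prod hz0 hTr (isBr_map h𝒱 h𝒲 (hP g hg))
  obtain ⟨bX, hbX⟩ := hX
  have hnX : (F bX).natDegree = 1 := by rw [hbX, natDegree_X]
  -- the step
  have step : ∀ (S : Set B) (b : B), 1 ≤ (F b).natDegree →
      (∃ b' ∈ S, F b' = derivative (F b)) →
      (∃ (T' I' : Type) (_ : Finite T') (_ : Fintype I') (M' : LM 𝒱 (⊥ : Subalgebra k K) ⊤ T' I'),
        Good M0 D z P' F S M') →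
      ∃ (T' I' : Type) (_ : Finite T') (_ : Fintype I') (M' : LM 𝒱 (⊥ : Subalgebra k K) ⊤ T' I'),
        Good M0 D z P' F (insert b S) M' := by
    rintro S b hb ⟨b', hb', he⟩ ⟨T', I', _, _, M', hM'⟩
    refine exists_step hF0' hD hM' b (hev0 _ (hF0 b)) hb ?_ Δ hΔ (hdeg b) ?_
    · rw [← he]
      exact hM'.br b' hb'
    · intro c hc hc1
      obtain ⟨Q, hQ0, hQd, hQF, hQP⟩ := hQ c b hc1
      exact ⟨Q, hQ0, hQd, hQF, fun n hn => ⟨_, hQP n hn, rfl⟩⟩
  -- the induction on the degree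
  have key : ∀ n : ℕ, ∃ (T' I' : Type) (_ : Finite T') (_ : Fintype I')
      (M' : LM 𝒱 (⊥ : Subalgebra k K) ⊤ T' I'),
        Good M0 D z P' F ({b | (F b).natDegree ≤ n} ∪ {bX}) M' := by
    intro n
    induction n with
    | zero =>
      refine ⟨_, _, inferInstance, inferInstance, M0, ⟨?_, hP', ?_, fun t => ⟨t, le_rfl⟩⟩⟩
      · rintro b (hb | hb)
        · have hb0 : (F b).natDegree = 0 := Nat.le_zero.1 hb
          have e : aeval z (F b) = algebraMap L K ((F b).coeff 0) := by
            conv_lhs => rw [eq_C_of_natDegree_eq_zero hb0]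
            rw [aeval_C]
          rw [e]
          exact hP' _ ⟨_, hconst b hb0, rfl⟩
        · rw [Set.mem_singleton_iff] at hb
          rw [hb, hbX, aeval_X]
          exact (isB_self hz0 hTr).br
      · intro t
        refine ⟨bX, Or.inr rfl, hnX.ge, ?_, ?_⟩
        · rw [hbX, derivative_X, map_one]
          exact IsB.one.br
        · rw [hbX, derivative_X, map_one, aeval_X, div_one]
          exact ldt_prod h𝒱 h𝒲 M hz0 hTr hD t
    | succ n ih =>
      have h1 : ∀ s : Finset B, (∀ b ∈ s, (F b).natDegree = n + 1) →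
          ∃ (T' I' : Type) (_ : Finite T') (_ : Fintype I')
          (M' : LM 𝒱 (⊥ : Subalgebra k K) ⊤ T' I'),
            Good M0 D z P' F ((s : Set B) ∪ ({b | (F b).natDegree ≤ n} ∪ {bX})) M' := by
        intro s
        induction s using Finset.induction_on with
        | empty =>
          intro _
          rw [Finset.coe_empty, Set.empty_union]
          exact ih
        | insert b s hb ihs =>
          intro hs
          rw [Finset.coe_insert, Set.insert_union]
          have hbn : (F b).natDegree = n + 1 := hs b (Finset.mem_insert_self _ _)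
          obtain ⟨b', hb'⟩ := hder b (by omega)
          refine step _ b (by omega) ⟨b', ?_, hb'⟩
            (ihs fun b hb => hs b (Finset.mem_insert_of_mem hb))
          refine Or.inr (Or.inl ?_)
          change (F b').natDegree ≤ n
          rw [hb']
          have := natDegree_derivative_le (F b)
          omega
      have : Fintype B := Fintype.ofFinite B
      obtain ⟨T', I', h2, h3, M', hM'⟩ := h1 (Finset.univ.filter fun b => (F b).natDegree = n + 1)
        (fun b hb => (Finset.mem_filter.1 hb).2)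
      refine ⟨T', I', h2, h3, M', ?_⟩
      have e : ((Finset.univ.filter fun b => (F b).natDegree = n + 1 : Finset B) : Set B) ∪
          ({b | (F b).natDegree ≤ n} ∪ {bX}) = {b | (F b).natDegree ≤ n + 1} ∪ {bX} := by
        ext b
        simp only [Finset.coe_filter, Finset.mem_univ, true_and, Set.mem_union,
          Set.mem_ofPred_eq, Set.mem_singleton_iff]
        constructor
        · rintro (h | h | h)
          · exact Or.inl (by omega)
          · exact Or.inl (by omega)
          · exact Or.inr h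
        · rintro (h | h)
          · by_cases h' : (F b).natDegree = n + 1
            · exact Or.inl h'
            · exact Or.inr (Or.inl (by omega))
          · exact Or.inr (Or.inr h)
      rw [← e]
      exact hM'
  obtain ⟨T', I', h2, h3, M', hM'⟩ := key Δ
  refine ⟨T', I', h2, h3, M', ?_, fun b => hM'.br b (Or.inl (hdeg b)),
    fun g hg => hM'.brP _ ⟨g, hg, rfl⟩, ?_⟩
  · intro t x
    obtain ⟨t0, ht0⟩ := hM'.dom t
    obtain ⟨a, ha, c, hc, hc0, hx⟩ := hF0' t0 x
    exact ⟨a, ht0 ha, c, ht0 hc, hc0, hx⟩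
  · intro t'
    obtain ⟨⟨t, b⟩, ht0⟩ := hM'.dom t'
    refine ⟨?_, t, (le_adj _ _).trans ht0⟩
    have h4 : zz z b ∈ M'.A t' := ht0 (self_mem_adj _ _)
    cases b
    · exact Or.inr h4
    · exact Or.inl h4

end main

end Pool.Agent.N98.RV
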