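import Pool.Agent.N98.RV.Adj
import Pool.Agent.N98.RV.Norm

/-!
# Regular rings with a divisor with strict normal crossings, in a field
-/

set_option autoImplicit false
set_option linter.unusedVariables false
set_option linter.unusedSectionVars false

universe u v

namespace Pool.Agent.N98.RV

open IsLocalRing Polynomial Pool.Agent.W418.LU2

section indn

variable {B : Type u} [CommRing B] [IsLocalRing B] {ι κ : Type} [Fintype ι] [Fintype κ]
  {z : ι → B}

lemma indN_units (hz : IndN z) (w u : ι → B) (hu : ∀ i, IsUnit (u i)) (hw : ∀ i, w i = u i * z i) :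
    IndN w := by
  have hm : ∀ i, w i ∈ maximalIdeal B ↔ z i ∈ maximalIdeal B := fun i => by
    rw [hw]
    exact Ideal.unit_mul_mem_iff_mem _ (hu i)
  intro c hc hs i
  have h1 := hz (fun i => c i * u i) (fun i hi => by
    rw [hc i (fun h => hi ((hm i).1 h)), zero_mul]) (by
    convert hs using 1
    refine Finset.sum_congr rfl fun i _ => ?_
    rw [hw]
    ring) i
  exact (Ideal.mul_unit_mem_iff_mem _ (hu i)).1 h1

end indn

variable {F : Type u} [Field F]

section regp

variable {A P : Subring F} {ι κ : Type} [Fintype ι] [Fintype κ] {x : ι → F}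

/-- Change of the family. -/
theorem regP_reindex (h : RegP A P x) (y : κ → F) (hy0 : ∀ k, y k ≠ 0) (hy : ∀ k, y k ∈ P)
    (g : {k : κ // (y k)⁻¹ ∉ A} → ι) (hg : Function.Injective g)
    (hgy : ∀ k, y k.1 = x (g k)) : RegP A P y := by
  have hreg := h.reg
  have hm : ∀ k, (⟨y k, hy k⟩ : P) ∈ maximalIdeal P ↔ (y k)⁻¹ ∉ A := by
    intro k
    rw [h.mem_max]
    constructor
    · intro h1 h2
      exact h1 ⟨hy0 k, h2⟩
    · rintro h1 ⟨-, h2⟩
      exact h1 h2
  refine ⟨h.PA, hy0, hy, h.reg, h.inv, ?_⟩
  have : Fintype {k : κ // (y k)⁻¹ ∉ A} := Fintype.ofFinite _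
  refine IndN.of_ind (Subtype.val : {k : κ // (y k)⁻¹ ∉ A} → κ) Subtype.val_injective
    (fun k hk => ⟨⟨k, (hm k).1 hk⟩, rfl⟩) ?_
  have h1 := h.ind.ind g hg (by
    intro k
    have h2 := (hm k.1).2 k.2
    have e : (⟨x (g k), h.mem (g k)⟩ : P) = ⟨y k.1, hy k.1⟩ := Subtype.ext (hgy k).symm
    rw [e]
    exact h2)
  convert h1 using 3
  exact hgy _

theorem regP_comp (h : RegP A P x) (g : κ → ι) (hg : Function.Injective g) :
    RegP A P (fun k => x (g k)) :=
  regP_reindex h _ (fun k => h.ne _) (fun k => h.mem _) (fun k => g k.1)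
    (fun a b hab => Subtype.ext (hg hab)) fun k => rfl

end regp

/-- `A` is regular, and the elements `x i` of `A` have strict normal crossings: at each centre
the nonunits among them are a part of a regular system of parameters. -/
structure RegC (A : Subring F) {I : Type} (x : I → F) : Prop where
  ne : ∀ i, x i ≠ 0
  mem : ∀ i, x i ∈ A
  reg : ∀ W : Subring F, Loc W → A ≤ W → ∀ (ι : Type) [Fintype ι] (f : ι → I),
    Function.Injective f → RegP W (lo W A) (fun i => x (f i))

section ops

variable {A A' : Subring F} {I : Type} {x : I → F}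

lemma lo_lo {W S : Subring F} (hS : S ≤ W) : lo W (lo W S) = lo W S := by
  apply le_antisymm
  · rintro y ⟨a, ha, b, hb, hb0, hbW, rfl⟩
    exact (lo W S).mul_mem ha (inv_mem_lo hS hb hb0 hbW)
  · exact le_lo _ _

lemma lo_eq_of {W S S' : Subring F} (hS : S ≤ W) (h : S ≤ S') (h' : S' ≤ lo W S) :
    lo W S' = lo W S :=
  le_antisymm ((lo_mono h').trans (lo_lo hS).le) (lo_mono h)

/-- Localizations. -/
theorem RegC.of_le (h : RegC A x) (hA : A ≤ A') (hl : ∀ W, Loc W → A' ≤ W → A' ≤ lo W A) :
    RegC A' x := by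
  refine ⟨h.ne, fun i => hA (h.mem i), fun W hW hAW ι _ f hf => ?_⟩
  rw [lo_eq_of (hA.trans hAW) hA (hl W hW hAW)]
  exact h.reg W hW (hA.trans hAW) ι f hf

lemma closure_le_lo {W : Subring F} {t : F} (ht : t ∈ lo W A) :
    Subring.closure (insert t (A : Set F)) ≤ lo W A := by
  rw [Subring.closure_le]
  rintro a (rfl | ha)
  · exact ht
  · exact le_lo _ _ ha

lemma le_closure {t : F} : A ≤ Subring.closure (insert t (A : Set F)) := fun a ha =>
  Subring.subset_closure (Set.mem_insert_of_mem _ ha)

lemma self_mem_closure {t : F} : t ∈ Subring.closure (insert t (A : Set F)) :=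
  Subring.subset_closure (Set.mem_insert _ _)

theorem RegC.loc (h : RegC A x) {t : F} (ht : t ∈ A) (ht0 : t ≠ 0) :
    RegC (Subring.closure (insert t⁻¹ (A : Set F))) x := by
  refine h.of_le le_closure fun W hW hAW => closure_le_lo ?_
  exact inv_mem_lo (le_closure.trans hAW) (le_lo _ _ ht) ht0 (hAW self_mem_closure)

/-- Change of the family. -/
theorem RegC.reindex (h : RegC A x) {J : Type} (y : J → F) (hy0 : ∀ k, y k ≠ 0)
    (hy : ∀ k, y k ∈ A) (g : {k : J // (y k)⁻¹ ∉ A} → I) (hg : Function.Injective g)
    (hgy : ∀ k, ∃ u ∈ A, u⁻¹ ∈ A ∧ y k.1 = u * x (g k)) : RegC A y := by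
  refine ⟨hy0, hy, fun W hW hAW ι _ f hf => ?_⟩
  choose u hu hu' hgy using hgy
  have hfin : Fintype {a : ι // (y (f a))⁻¹ ∉ A} := Fintype.ofFinite _
  have h1 := h.reg W hW hAW {a : ι // (y (f a))⁻¹ ∉ A} (fun a => g ⟨f a.1, a.2⟩) (by
    intro a b hab
    have h2 := hg hab
    exact Subtype.ext (hf (congrArg Subtype.val h2)))
  have hreg := h1.reg
  have h2 : RegP W (lo W A) (fun a : {a : ι // (y (f a))⁻¹ ∉ A} => y (f a.1)) := by
    refine ⟨h1.PA, fun a => hy0 _, fun a => le_lo _ _ (hy _), h1.reg, h1.inv, ?_⟩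
    refine indN_units h1.ind _ (fun a => ⟨u ⟨f a.1, a.2⟩, le_lo _ _ (hu _)⟩) (fun a => ?_)
      (fun a => Subtype.ext (hgy ⟨f a.1, a.2⟩))
    rw [isUnit_lo_iff hAW]
    refine ⟨?_, hAW (hu' _)⟩
    intro h0
    apply hy0 (f a.1)
    have h3 := hgy ⟨f a.1, a.2⟩
    change u ⟨f a.1, a.2⟩ = 0 at h0
    rw [h0, zero_mul] at h3
    exact h3
  refine regP_reindex h2 _ (fun a => hy0 _) (fun a => le_lo _ _ (hy _))
    (fun a => ⟨a.1, fun h3 => a.2 (hAW h3)⟩) (fun a b hab => ?_) fun a => rfl
  exact Subtype.ext (congrArg (fun c => c.1) hab)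

end ops

section blow

variable {A : Subring F} {I : Type} [DecidableEq I]

/-- The divisors on the chart of the blowup of the intersection of the divisors `i` and `j` where
the divisor `j` generates the exceptional divisor. -/
noncomputable def bx (x : I → F) (i j : I) : Option I → F
  | none => x j
  | some l => if l = i then x i / x j else if l = j then 1 else x l

/-- Blowups of strata. -/
theorem RegC.blow {x : I → F} (h : RegC A x) {i j : I} (hij : i ≠ j) :
    RegC (Subring.closure (insert (x i / x j) (A : Set F))) (bx x i j) := by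
  classical
  have hne : ∀ o, bx x i j o ≠ 0 := by
    rintro (_ | l)
    · exact h.ne j
    · simp only [bx]
      split_ifs
      · exact div_ne_zero (h.ne _) (h.ne _)
      · exact one_ne_zero
      · exact h.ne l
  have hmem : ∀ o, bx x i j o ∈ Subring.closure (insert (x i / x j) (A : Set F)) := by
    rintro (_ | l)
    · exact le_closure (h.mem j)
    · simp only [bx]
      split_ifs
      · exact self_mem_closure
      · exact Subring.one_mem _
      · exact le_closure (h.mem l)
  refine ⟨hne, hmem, fun W hW hBW ι _ f hf => ?_⟩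
  have hAW : A ≤ W := le_closure.trans hBW
  have hs : {l : I | l = i ∨ l = j ∨ some l ∈ Set.range f}.Finite := by
    have h1 : {l : I | l = i ∨ l = j ∨ some l ∈ Set.range f} ⊆
        {i} ∪ ({j} ∪ Option.some ⁻¹' (Set.range f)) := by
      rintro l (rfl | rfl | hl)
      · exact Or.inl rfl
      · exact Or.inr (Or.inl rfl)
      · exact Or.inr (Or.inr hl)
    refine Set.Finite.subset ?_ h1
    exact (Set.finite_singleton _).union ((Set.finite_singleton _).union
      ((Set.finite_range f).preimage (Option.some_injective I).injOn))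
  let κ := {l : I | l = i ∨ l = j ∨ some l ∈ Set.range f}
  have hκ : Fintype κ := hs.fintype
  let i' : κ := ⟨i, Or.inl rfl⟩
  let j' : κ := ⟨j, Or.inr (Or.inl rfl)⟩
  have hij' : i' ≠ j' := fun h => hij (congrArg Subtype.val h)
  have h1 := h.reg W hW hAW κ Subtype.val Subtype.val_injective
  have htW : x i / x j ∈ W := hBW self_mem_closure
  have h2 : RegP W (lo W (Subring.closure (insert (x i / x j) (A : Set F))))
      (Function.update (fun l : κ => x l.1) i' (x i / x j)) := by
    by_cases hj : (x j)⁻¹ ∈ W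
    · have h3 : x i / x j ∈ lo W A := by
        rw [div_eq_mul_inv]
        exact (lo W A).mul_mem (le_lo _ _ (h.mem i))
          (inv_mem_lo hAW (le_lo _ _ (h.mem j)) (h.ne j) hj)
      rw [lo_eq_of hAW le_closure (closure_le_lo h3)]
      have h4 := h1.unitStep i' j' hj
      rw [div_eq_mul_inv]
      exact h4
    · have hi : (x i)⁻¹ ∉ W := by
        intro hi
        apply hj
        have e : (x j)⁻¹ = x i / x j * (x i)⁻¹ := by
          have := h.ne i
          field_simp
        rw [e]
        exact W.mul_mem htW hi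
      have h4 := RegP.blow hW hAW h1 hij' hi hj (by
        change x i * (x j)⁻¹ ∈ W
        rw [← div_eq_mul_inv]
        exact htW)
      rw [div_eq_mul_inv]
      exact h4
  have hB : ∀ {l : I} {a : ι}, f a = some l → l ∈ κ := fun {l a} ha => Or.inr (Or.inr ⟨a, ha⟩)
  let g : {a : ι // (bx x i j (f a))⁻¹ ∉ W} → κ := fun a =>
    match hfa : f a.1 with
    | none => j'
    | some l => ⟨l, hB hfa⟩
  have hg1 : ∀ a : {a : ι // (bx x i j (f a))⁻¹ ∉ W}, f a.1 = none → g a = j' := by
    intro a ha
    simp only [g]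
    split
    · rfl
    · rename_i l hl
      rw [ha] at hl
      exact absurd hl (by simp)
  have hg2 : ∀ (a : {a : ι // (bx x i j (f a))⁻¹ ∉ W}) (l : I), f a.1 = some l →
      (g a).1 = l ∧ l ≠ j := by
    intro a l ha
    constructor
    · simp only [g]
      split
      · rename_i hl
        rw [ha] at hl
        exact absurd hl (by simp)
      · rename_i l' hl
        rw [ha] at hl
        exact (Option.some_injective I hl).symm
    · rintro rfl
      apply a.2
      rw [ha]
      simp only [bx]
      rw [if_neg hij.symm]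
      simp
  refine regP_reindex h2 _ (fun a => hne _) (fun a => le_lo _ _ (hmem _)) g ?_ ?_
  · intro a b hab
    apply Subtype.ext
    apply hf
    rcases hfa : f a.1 with _ | l
    · rcases hfb : f b.1 with _ | l'
      · rfl
      · exfalso
        obtain ⟨h3, h4⟩ := hg2 b l' hfb
        rw [hg1 a hfa] at hab
        rw [← hab] at h3
        exact h4 h3.symm
    · rcases hfb : f b.1 with _ | l'
      · exfalso
        obtain ⟨h3, h4⟩ := hg2 a l hfa
        rw [hg1 b hfb] at hab
        rw [hab] at h3
        exact h4 h3.symm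
      · rw [← (hg2 a l hfa).1, ← (hg2 b l' hfb).1, hab]
  · intro a
    rcases hfa : f a.1 with _ | l
    · rw [hg1 a hfa, Function.update_of_ne hij'.symm]
      rfl
    · obtain ⟨h3, h4⟩ := hg2 a l hfa
      by_cases hl : l = i
      · have e : g a = i' := Subtype.ext (h3.trans hl)
        rw [e, Function.update_self]
        simp only [bx]
        rw [if_pos hl]
      · have e : g a ≠ i' := by
          intro h5
          apply hl
          rw [← h3, h5]
        rw [Function.update_of_ne e]
        simp only [bx]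
        rw [if_neg hl, if_neg h4, h3]

end blow

end Pool.Agent.N98.RV
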