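import Pool.Agent.N98.RV.HypF
import Pool.Agent.N98.Rel

/-!
Models of varieties of bounded degree, over a base which depends on the family.
-/

set_option autoImplicit false
set_option linter.unusedVariables false
set_option linter.unusedSectionVars false

universe u

namespace Pool.Agent.N98.RV

open MvPolynomial Pool.Agent.N98

section main

variable {k0 E K : Type u} [Field k0] [Field E] [Field K] [Algebra E K] [Algebra k0 K] [Algebra k0 E] [IsScalarTower k0 E K] {N r : ℕ} (x : Fin N → K) {σ : Type} [Fintype σ]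
  (v : σ → K) (w : Fin r → K) (z : σ → MvPolynomial (Fin r) E)

/-- **Models of varieties of bounded degree.** -/
theorem deg_modelsF {𝒮 : Set (Subring E)} (h𝒮 : ∀ k ∈ 𝒮, IsNoetherianRing k)
    {𝒲 : Set (ValuationSubring E)} (hE : HasF 𝒮 𝒲) [Infinite E]
    (hne : (exV K 𝒲).Nonempty)
    (htop : IntermediateField.adjoin E (Set.range x) = ⊤)
    (hv : AlgebraicIndependent k0 v) (hvx : ∀ i, v i ∈ img k0 x 1)
    (hw : AlgebraicIndependent E w) (hz : ∀ i, aeval w (z i) = v i)
    (hzd : ∀ i, (z i).totalDegree ≤ 1) (δ C0 : ℕ) (hδ1 : 1 ≤ δ)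
    (hδ : ∀ t : ℕ, (Fintype.card σ).factorial * Module.finrank k0 (img k0 x t) ≤
      δ * (t + C0) ^ Fintype.card σ) (hchar : ∀ k ∈ 𝒮, IsUnit ((Nat.factorial (δ ^ 2 ^ r) : ℕ) : k))
    (B : Type) [Finite B] (a0 : B → E) (a : B → Fin N → E)
    (hb : ∀ b, algebraMap E K (a0 b) + ∑ j, algebraMap E K (a b j) * x j ≠ 0) :
    ∃ (k : Subring E) (_ : k ∈ 𝒮) (T I : Type) (_ : Finite T) (_ : Fintype I)
      (M : LM (exV K 𝒲) (⊥ : Subalgebra k K) ⊤ T I), Frc M ∧ ∀ b, IsBr M (algebraMap E K (a0 b) + ∑ j, algebraMap E K (a b j) * x j) := by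
  classical
  obtain ⟨k1, hk1, -⟩ := hE Empty (fun e => e.elim) (fun e => e.elim)
  have hchar0 : ((Nat.factorial δ : ℕ) : k0) ≠ 0 := by
    have h1 : ((Nat.factorial (δ ^ 2 ^ r) : ℕ) : E) ≠ 0 := by
      rw [← map_natCast (algebraMap k1 E)]
      exact ((hchar k1 hk1).map (algebraMap k1 E)).ne_zero
    have h2 : Nat.factorial δ ∣ Nat.factorial (δ ^ 2 ^ r) :=
      Nat.factorial_dvd_factorial (Nat.le_self_pow (by positivity) δ)
    intro h
    apply h1
    obtain ⟨c, hc⟩ := h2
    rw [hc, Nat.cast_mul, ← map_natCast (algebraMap k0 E), h, map_zero, zero_mul]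
  obtain ⟨y, F, W, V, hF, hFd, hker, hWd, hW, hVd, hV⟩ := spz x v w z hv hvx hw hz hzd δ C0 hδ
    hchar0
  have hxV : ∀ j, x j = -aeval y (V j) / aeval y W := by
    intro j
    rw [eq_div_iff hW, eq_neg_iff_add_eq_zero, mul_comm, add_comm]
    exact hV j
  have hytop : IntermediateField.adjoin E (Set.range y) = ⊤ := by
    rw [eq_top_iff, ← htop, IntermediateField.adjoin_le_iff]
    rintro _ ⟨j, rfl⟩
    rw [SetLike.mem_coe, hxV j]
    have h1 : ∀ g : MvPolynomial (Fin (r + 1)) E, aeval y g ∈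
        IntermediateField.adjoin E (Set.range y) := by
      intro g
      have h2 : aeval y g ∈ Algebra.adjoin E (Set.range y) := by
        rw [Algebra.adjoin_range_eq_range_aeval]
        exact ⟨g, rfl⟩
      exact IntermediateField.algebra_adjoin_le_adjoin _ _ h2
    exact _root_.div_mem (neg_mem (h1 _)) (h1 _)
  have hl : ∀ b, (algebraMap E K (a0 b) + ∑ j, algebraMap E K (a b j) * x j) * aeval y W =
      aeval y (C (a0 b) * W - ∑ j, C (a b j) * V j) := by
    intro b
    rw [map_sub, map_mul, aeval_C, map_sum, add_mul, Finset.sum_mul, sub_eq_add_neg]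
    congr 1
    rw [← Finset.sum_neg_distrib]
    refine Finset.sum_congr rfl fun j _ => ?_
    rw [map_mul, aeval_C]
    have := hV j
    linear_combination (algebraMap E K (a b j)) * this
  obtain ⟨k, hk, T, I, hT, hI, M, hFr, hM⟩ := hypF (n := r + 1) h𝒮 hE hne δ hδ1 hchar y hytop F hF hFd hker
    (Option B) (fun o => o.elim W fun b => C (a0 b) * W - ∑ j, C (a b j) * V j)
    (by
      rintro (_ | b)
      · exact hW
      · change aeval y (C (a0 b) * W - ∑ j, C (a b j) * V j) ≠ 0
        rw [← hl b]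
        exact mul_ne_zero (hb b) hW)
    (by
      rintro (_ | b)
      · exact hWd
      · change (C (a0 b) * W - ∑ j, C (a b j) * V j).totalDegree ≤ δ
        refine (totalDegree_sub _ _).trans (max_le ?_ ?_)
        · refine (totalDegree_mul _ _).trans ?_
          rw [totalDegree_C, zero_add]
          exact hWd
        · refine totalDegree_finsetSum_le fun j _ => ?_
          refine (totalDegree_mul _ _).trans ?_
          rw [totalDegree_C, zero_add]
          exact hVd j)
  refine ⟨k, hk, T, I, hT, hI, M, hFr, fun b => ?_⟩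
  have h1 : algebraMap E K (a0 b) + ∑ j, algebraMap E K (a b j) * x j =
      aeval y (C (a0 b) * W - ∑ j, C (a b j) * V j) * (aeval y W)⁻¹ := by
    rw [← hl b, mul_assoc, mul_inv_cancel₀ hW, mul_one]
  rw [h1]
  exact (hM (some b)).mul (hM none).inv

end main

section rel

variable {E K : Type u} [Field E] [Field K] [Algebra E K] {N : ℕ} (x : Fin N → K)

/-- **Models of varieties of bounded degree**, the relative version. -/
theorem rel_modelsF {𝒮 : Set (Subring E)} (h𝒮 : ∀ k ∈ 𝒮, IsNoetherianRing k)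
    {𝒲 : Set (ValuationSubring E)} (hE : HasF 𝒮 𝒲) [Infinite E]
    (hne : (exV K 𝒲).Nonempty)
    (htop : IntermediateField.adjoin E (Set.range x) = ⊤) (r : ℕ)
    (htr : Algebra.trdeg E K = r) (δ C0 : ℕ)
    (hδ : ∀ t : ℕ, r.factorial * Module.finrank E (img E x t) ≤ δ * (t + C0) ^ r)
    (hchar : ∀ k ∈ 𝒮, IsUnit ((Nat.factorial (δ ^ 2 ^ r) : ℕ) : k))
    (B : Type) [Finite B] (a0 : B → E) (a : B → Fin N → E)
    (hb : ∀ b, algebraMap E K (a0 b) + ∑ j, algebraMap E K (a b j) * x j ≠ 0) :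
    ∃ (k : Subring E) (_ : k ∈ 𝒮) (T I : Type) (_ : Finite T) (_ : Fintype I)
      (M : LM (exV K 𝒲) (⊥ : Subalgebra k K) ⊤ T I), Frc M ∧ ∀ b, IsBr M (algebraMap E K (a0 b) + ∑ j, algebraMap E K (a b j) * x j) := by
  classical
  obtain ⟨v, hv, hvx⟩ := exists_basis x htop r htr (Fintype.card_fin r)
  exact deg_modelsF (k0 := E) (E := E) x v v (fun i => X i) h𝒮 hE hne htop hv
    (fun i => by
      obtain ⟨j, hj⟩ := hvx i
      rw [hj]
      exact x_mem_img x j) hv (fun i => aeval_X _ _) (fun i => (totalDegree_X (R := E) i).le) δ C0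
    (one_le_of_growth x r δ C0 hδ) (by rw [Fintype.card_fin]; exact hδ) hchar B a0 a hb

end rel

end Pool.Agent.N98.RV
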