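import Pool.Agent.N98.RV.Reg2

/-!
Rings with strict normal crossings divisors and `RegC`.
-/

set_option autoImplicit false
set_option linter.unusedVariables false
set_option linter.unusedSectionVars false

universe u

namespace Pool.Agent.N98.RV

open IsLocalRing Pool.Agent.W418.LU2

variable {F : Type u} [Field F]

/-- The localization at the centre of a local ring. -/
theorem exists_center' {A : Type u} [CommRing A] (j0 : A →+* F) (hinj : Function.Injective j0)
    {S W : Subring F} (hS : ∀ y, y ∈ S ↔ ∃ a, j0 a = y) (hW : Loc W) (hSW : S ≤ W) :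
    ∃ (P : Ideal A) (_ : P.IsPrime), (∀ a : A, a ∉ P ↔ j0 a ≠ 0 ∧ (j0 a)⁻¹ ∈ W) ∧
      ∃ e : Localization.AtPrime P ≃+* lo W S, ∀ a : A, (e (algebraMap A _ a) : F) = j0 a := by
  set B := lo W S with hB
  have hloc : IsLocalRing B := isLocalRing_lo hW hSW
  let j : A →+* B := j0.codRestrict B fun a => le_lo W S ((hS _).2 ⟨a, rfl⟩)
  have hj : ∀ a, (j a : F) = j0 a := fun a => rfl
  let _ : Algebra A B := j.toAlgebra
  let q : Ideal A := (maximalIdeal B).comap j
  have hq : q.IsPrime := Ideal.IsPrime.comap j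
  have hqm : ∀ a : A, a ∉ q ↔ IsUnit (j a) := by
    intro a
    change ¬ (j a ∈ maximalIdeal B) ↔ _
    rw [mem_maximalIdeal, mem_nonunits_iff, not_not]
  have hqW : ∀ a : A, a ∉ q ↔ j0 a ≠ 0 ∧ (j0 a)⁻¹ ∈ W := by
    intro a
    rw [hqm, isUnit_lo_iff hSW]
    rfl
  have hL : IsLocalization.AtPrime B q := by
    refine ⟨?_, ?_, ?_⟩
    · rintro ⟨a, ha⟩
      exact (hqm a).1 ha
    · rintro ⟨z, a, ha, b, hb, hb0, hbW, rfl⟩
      obtain ⟨a', rfl⟩ := (hS _).1 ha
      obtain ⟨b', rfl⟩ := (hS _).1 hb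
      refine ⟨(a', ⟨b', (hqW _).2 ⟨hb0, hbW⟩⟩), Subtype.ext ?_⟩
      change j0 a' * (j0 b')⁻¹ * j0 b' = j0 a'
      rw [mul_assoc, inv_mul_cancel₀ hb0, mul_one]
    · intro a b hab
      refine ⟨1, ?_⟩
      have h1 : j0 a = j0 b := congrArg (Subtype.val : B → F) hab
      rw [hinj h1]
  refine ⟨q, hq, hqW, (IsLocalization.algEquiv q.primeCompl (Localization.AtPrime q) B).toRingEquiv,
    fun a => ?_⟩
  have h1 : (IsLocalization.algEquiv q.primeCompl (Localization.AtPrime q) B)
      (algebraMap A _ a) = algebraMap A B a := AlgEquiv.commutes _ a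
  change (((IsLocalization.algEquiv q.primeCompl (Localization.AtPrime q) B)
      (algebraMap A _ a) : B) : F) = j0 a
  rw [h1]
  rfl

/-- The localization at the centre of a local ring. -/
theorem exists_center {A W : Subring F} (hW : Loc W) (hAW : A ≤ W) :
    ∃ (P : Ideal A) (_ : P.IsPrime), (∀ a : A, a ∉ P ↔ (a : F) ≠ 0 ∧ (a : F)⁻¹ ∈ W) ∧
      ∃ e : Localization.AtPrime P ≃+* lo W A, ∀ a : A, (e (algebraMap A _ a) : F) = a :=
  exists_center' A.subtype Subtype.val_injective (fun y => ⟨fun hy => ⟨⟨y, hy⟩, rfl⟩, by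
    rintro ⟨a, rfl⟩
    exact a.2⟩) hW hAW

/-- From regular rings with strict normal crossings divisors. -/
theorem regC_of_snc {A : Type u} [CommRing A] (j0 : A →+* F) (hinj : Function.Injective j0)
    {S : Subring F} (hS : ∀ y, y ∈ S ↔ ∃ a, j0 a = y) {m : ℕ} {x : Fin m → A}
    (hx0 : ∀ i, j0 (x i) ≠ 0)
    (h : ∀ (P : Ideal A) [P.IsPrime], IsRegularLocalRing (Localization.AtPrime P) ∧
      ∀ c : Fin m → Localization.AtPrime P, (∀ i, x i ∉ P → c i = 0) →
        ∑ i, c i * algebraMap A _ (x i) ∈ maximalIdeal (Localization.AtPrime P) ^ 2 →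
        ∀ i, c i ∈ maximalIdeal (Localization.AtPrime P)) :
    RegC S (fun i => j0 (x i)) := by
  have hxS : ∀ i, j0 (x i) ∈ S := fun i => (hS _).2 ⟨x i, rfl⟩
  refine ⟨hx0, hxS, fun W hW hAW ι _ f hf => ?_⟩
  obtain ⟨P, hP, hPW, e, he⟩ := exists_center' j0 hinj hS hW hAW
  obtain ⟨h1, h2⟩ := h P
  have hloc : IsLocalRing (lo W S) := isLocalRing_lo hW hAW
  have hreg : IsRegularLocalRing (lo W S) := IsRegularLocalRing.of_ringEquiv e
  have hme : ∀ b : Localization.AtPrime P, e b ∈ maximalIdeal (lo W S) ↔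
      b ∈ maximalIdeal (Localization.AtPrime P) := by
    intro b
    rw [mem_maximalIdeal, mem_maximalIdeal, mem_nonunits_iff, mem_nonunits_iff,
      MulEquiv.isUnit_map e]
  have hmap : (maximalIdeal (lo W S)).comap (e : Localization.AtPrime P →+* lo W S) =
      maximalIdeal (Localization.AtPrime P) := by
    ext b
    exact hme b
  have hmap' : (maximalIdeal (lo W S)).map (e.symm : lo W S →+* Localization.AtPrime P) =
      maximalIdeal (Localization.AtPrime P) := by
    rw [← hmap]
    exact Ideal.map_symm e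
  have key : RegP W (lo W S) (fun i => j0 (x i)) := by
    refine ⟨lo_le hAW, hx0, fun i => le_lo _ _ (hxS i), hreg,
      fun y hy h0 h1 => inv_mem_lo hAW hy h0 h1, ?_⟩
    intro c hc hs i
    have hxe : ∀ i, e.symm (⟨j0 (x i), le_lo _ _ (hxS i)⟩ : lo W S) = algebraMap A _ (x i) := by
      intro i
      rw [RingEquiv.symm_apply_eq]
      exact Subtype.ext (he _).symm
    have h3 := h2 (fun i => e.symm (c i)) (by
      intro i hi
      rw [hc i, map_zero]
      intro h4
      apply hi
      by_contra h5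
      have h6 := (hPW (x i)).1 h5
      exact (mem_nonunits_iff.1 ((mem_maximalIdeal _).1 h4))
        ((isUnit_lo_iff hAW _).2 h6)) (by
      have h4 : e.symm (∑ i, c i * (⟨j0 (x i), le_lo _ _ (hxS i)⟩ : lo W S)) ∈
          maximalIdeal (Localization.AtPrime P) ^ 2 := by
        rw [← hmap', ← Ideal.map_pow]
        exact Ideal.mem_map_of_mem _ hs
      rw [map_sum] at h4
      convert h4 using 1
      refine Finset.sum_congr rfl fun i _ => ?_
      rw [map_mul, hxe]) i
    rw [← hme, RingEquiv.apply_symm_apply] at h3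
    exact h3
  exact regP_comp key f hf

end Pool.Agent.N98.RV
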