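import Pool.Agent.N98.RV.HasRM
import Pool.Agent.N98.RV.Snc

/-!
Models with a single chart, and sums of monomials.
-/

set_option autoImplicit false
set_option linter.unusedVariables false
set_option linter.unusedSectionVars false

universe u

namespace Pool.Agent.N98.RV

open Pool.Agent.W418.LU2

variable {k E : Type u} [CommRing k] [Field E] [Algebra k E]

/-- The model with a single chart. -/
noncomputable def singleLM {A : Subalgebra k E} (hft : Algebra.FiniteType k A) {I : Type}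
    {x : I → E} (hx : RegC A.toSubring x) {V : ValuationSubring E} (hV : ∀ a ∈ A, a ∈ V) :
    LM ({V} : Set (ValuationSubring E)) (⊥ : Subalgebra k E) ⊤ Unit I where
  ne := ⟨V, rfl⟩
  A := fun _ => A
  H := fun _ => 1
  x := fun _ => x
  ft := fun _ => hft
  base := fun _ => bot_le
  H0 := fun _ => one_ne_zero
  HR := fun _ => trivial
  rt := fun _ _ => by rw [div_one]; exact A.one_mem
  gl := fun _ _ f hf => ⟨0, by simpa using hf⟩
  dn := fun _ f _ => ⟨0, trivial⟩
  cv := fun W hW => ⟨(), fun f hf => by rw [Set.mem_singleton_iff.1 hW]; exact hV f hf⟩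
  xA := fun _ i => hx.mem i
  x0 := fun _ i => hx.ne i
  gi := fun _ _ i => ⟨0, by rw [pow_zero, one_mul, div_self (hx.ne i)]; exact A.one_mem⟩
  rg := fun _ => hx

/-- A minimal element of a finite set with respect to the divisibility. -/
lemma exists_min_div {G : Type*} (A : Subalgebra k E) (g : G → E) (hg : ∀ a, g a ≠ 0)
    (htot : ∀ a b, g b / g a ∈ A ∨ g a / g b ∈ A) (s : Finset G) (hs : s.Nonempty) :
    ∃ a ∈ s, ∀ b ∈ s, g b / g a ∈ A := by
  classical
  induction hs using Finset.Nonempty.cons_induction with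
  | singleton a =>
    refine ⟨a, Finset.mem_singleton_self a, fun b hb => ?_⟩
    rw [Finset.mem_singleton.1 hb, div_self (hg a)]
    exact A.one_mem
  | cons a s ha hs ih =>
    obtain ⟨c, hc, h⟩ := ih
    rcases htot c a with h1 | h1
    · refine ⟨c, Finset.mem_cons_of_mem hc, fun b hb => ?_⟩
      rcases Finset.mem_cons.1 hb with rfl | hb
      · exact h1
      · exact h b hb
    · refine ⟨a, Finset.mem_cons_self a s, fun b hb => ?_⟩
      rcases Finset.mem_cons.1 hb with rfl | hb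
      · rw [div_self (hg _)]
        exact A.one_mem
      · have e : g b / g a = g b / g c * (g c / g a) := by
          have := hg c
          field_simp
        rw [e]
        exact A.mul_mem (h b hb) h1

lemma IsM.mono' {I : Type} [Fintype I] {A A' : Subalgebra k E} (h : A ≤ A') {x : I → E} {g : E}
    {γ : I → ℤ} (hg : IsM A x g γ) : IsM A' x g γ := by
  obtain ⟨w, h0, h1, h2, h3⟩ := hg
  exact ⟨w, h0, h h1, h h2, h3⟩

/-- Sums of boundary functions of minimal value become boundary functions. -/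
theorem exists_unitize {A : Subalgebra k E} (hft : Algebra.FiniteType k A) {I : Type} [Fintype I]
    {x : I → E} (hx : RegC A.toSubring x) {V : ValuationSubring E} (hV : ∀ a ∈ A, a ∈ V)
    {G J : Type} [Finite G] [Finite J] (g : G → E) (hg : ∀ l, ∃ γ, IsM A x (g l) γ)
    (s : J → Finset G) (f : J → E) (hf0 : ∀ j, f j ≠ 0) (hf : ∀ j, f j = ∑ l ∈ s j, g l)
    (hmin : ∀ j, ∀ l ∈ s j, g l / f j ∈ V) :
    ∃ (A' : Subalgebra k E) (I' : Type) (_ : Fintype I') (x' : I' → E),
      Algebra.FiniteType k A' ∧ A ≤ A' ∧ RegC A'.toSubring x' ∧ (∀ a ∈ A', a ∈ V) ∧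
      ∀ j, ∃ γ, IsM A' x' (f j) γ := by
  classical
  have : Fintype J := Fintype.ofFinite J
  have hg0 : ∀ l, g l ≠ 0 := fun l => by
    obtain ⟨γ, h⟩ := hg l
    exact h.ne hx.ne
  obtain ⟨T', I', hT', hI', M', π, hO, hC⟩ := exists_princ (singleLM hft hx hV) g (fun l => by
    obtain ⟨γ, h⟩ := hg l
    exact ⟨γ, fun _ => h⟩)
  obtain ⟨t, ht⟩ := M'.cv V rfl
  have hle : A ≤ M'.A t := hO.le t
  have hsne : ∀ j, (s j).Nonempty := by
    intro j
    rw [Finset.nonempty_iff_ne_empty]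
    intro h
    apply hf0 j
    rw [hf j, h, Finset.sum_empty]
  choose l0 hl0 hmin0 using fun j => exists_min_div (M'.A t) g hg0 (hC t) (s j) (hsne j)
  let w : J → E := fun j => f j / g (l0 j)
  have hw0 : ∀ j, w j ≠ 0 := fun j => div_ne_zero (hf0 j) (hg0 _)
  have hwA : ∀ j, w j ∈ M'.A t := by
    intro j
    change f j / g (l0 j) ∈ _
    rw [hf j, Finset.sum_div]
    exact (M'.A t).sum_mem fun l hl => hmin0 j l hl
  have hwV : ∀ j, (w j)⁻¹ ∈ V := by
    intro j
    change (f j / g (l0 j))⁻¹ ∈ V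
    rw [inv_div]
    exact hmin j _ (hl0 j)
  let d : E := ∏ j, w j
  have hd0 : d ≠ 0 := Finset.prod_ne_zero_iff.2 fun j _ => hw0 j
  have hdA : d ∈ M'.A t := (M'.A t).prod_mem fun j _ => hwA j
  have hdV : d⁻¹ ∈ V := by
    change (∏ j, w j)⁻¹ ∈ V
    rw [← Finset.prod_inv_distrib]
    exact V.toSubring.prod_mem fun j _ => hwV j
  refine ⟨adj (M'.A t) d⁻¹, I', hI', M'.x t, ft_adj (M'.ft t) _, hle.trans (le_adj _ _), ?_, ?_, ?_⟩
  · have h1 := (M'.rg t).loc hdA hd0
    rwa [adj_toSubring]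
  · intro a ha
    exact adj_induction (M'.A t) d⁻¹ (p := fun a => a ∈ V) ht (fun a b ha hb => V.add_mem _ _ ha hb)
      (fun a ha => V.mul_mem _ _ ha hdV) a ha
  · intro j
    obtain ⟨γ, h⟩ := hg (l0 j)
    obtain ⟨γ', h'⟩ := hO.bf (g (l0 j)) ⟨γ, fun _ => h⟩
    refine ⟨γ', ?_⟩
    obtain ⟨u, h0, h1, h2, h3⟩ := h' t
    have hwinv : (w j)⁻¹ ∈ adj (M'.A t) d⁻¹ := by
      have e : (w j)⁻¹ = d⁻¹ * ∏ i ∈ Finset.univ.erase j, w i := by
        change (w j)⁻¹ = (∏ j, w j)⁻¹ * _
        rw [← Finset.mul_prod_erase Finset.univ w (Finset.mem_univ j), mul_inv, mul_assoc,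
          inv_mul_cancel₀ (Finset.prod_ne_zero_iff.2 fun i _ => hw0 i), mul_one]
      rw [e]
      exact Subalgebra.mul_mem _ (self_mem_adj _ _)
        (Subalgebra.prod_mem _ fun i _ => le_adj _ _ (hwA i))
    refine ⟨w j * u, mul_ne_zero (hw0 j) h0, Subalgebra.mul_mem _ (le_adj _ _ (hwA j))
      (le_adj _ _ h1), ?_, ?_⟩
    · rw [mul_inv]
      exact Subalgebra.mul_mem _ hwinv (le_adj _ _ h2)
    · rw [mul_assoc, ← h3]
      change f j = f j / g (l0 j) * g (l0 j)
      rw [div_mul_cancel₀ _ (hg0 _)]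

end Pool.Agent.N98.RV
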